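import Pool.Agent.H336R3.ShotDefs

set_option autoImplicit false

/-! Addresses of the vertices of a neighbourhood in a breadth first search tree; the non-tree edges
determine the neighbourhood of a vertex of a regular graph up to isomorphism. -/

namespace Pool.Agent.H336R3.Shot

variable {V : Type}

theorem mem_nbhd_iff {G : SimpleGraph V} {r : ℕ} {v w : V} :
    w ∈ nbhd G r v ↔ G.Reachable v w ∧ G.dist v w ≤ r := by
  unfold nbhd
  rw [Set.mem_ofPred_eq]
  constructor
  · intro h
    have hr : G.Reachable v w := by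
      apply SimpleGraph.reachable_of_edist_ne_top
      intro h'
      rw [h'] at h
      simp at h
    refine ⟨hr, ?_⟩
    rw [← hr.coe_dist_eq_edist] at h
    exact_mod_cast h
  · rintro ⟨hr, h⟩
    rw [← hr.coe_dist_eq_edist]
    exact_mod_cast h

theorem exists_parent {G : SimpleGraph V} {r : ℕ} {v w : V} (hw : w ∈ nbhd G r v) (hne : w ≠ v) :
    ∃ u, G.Adj u w ∧ u ∈ nbhd G r v ∧ G.dist v u + 1 = G.dist v w := by
  rw [mem_nbhd_iff] at hw
  obtain ⟨p, hp⟩ := hw.1.exists_walk_length_eq_dist
  have hnil : ¬ p.Nil := by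
    intro h
    exact hne h.eq.symm
  have h1 := p.adj_penultimate hnil
  have hlen : 0 < p.length := by
    have := hw.1.pos_dist_of_ne (Ne.symm hne)
    omega
  have h2 : p.dropLast.length + 1 = p.length := by
    rw [SimpleGraph.Walk.length_dropLast]
    omega
  have h3 : G.dist v p.penultimate ≤ p.dropLast.length := SimpleGraph.dist_le _
  have h4 : G.Reachable v p.penultimate := ⟨p.dropLast⟩
  have h5 : G.dist v w ≤ G.dist v p.penultimate + 1 := by
    have h6 := h4.dist_triangle_left w
    have h7 : G.dist p.penultimate w = 1 := SimpleGraph.dist_eq_one_iff_adj.2 h1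
    omega
  refine ⟨p.penultimate, h1, ?_, by omega⟩
  rw [mem_nbhd_iff]
  exact ⟨h4, by omega⟩

theorem nbr_mem {G : SimpleGraph V} {r : ℕ} {v u z : V} (hu : u ∈ nbhd G r v)
    (hlt : G.dist v u < r) (h : G.Adj u z) : z ∈ nbhd G r v := by
  rw [mem_nbhd_iff] at hu ⊢
  have h6 := hu.1.dist_triangle_left z
  have h7 : G.dist u z = 1 := SimpleGraph.dist_eq_one_iff_adj.2 h
  exact ⟨hu.1.trans h.reachable, by omega⟩

/-- a breadth first search tree of the `r`-neighbourhood of `v`, with numbered children -/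
structure Tr (G : SimpleGraph V) (r : ℕ) (v : V) where
  par : V → V
  idx : V → ℕ
  par_root : par v = v
  par_adj : ∀ w ∈ nbhd G r v, w ≠ v → G.Adj (par w) w
  par_mem : ∀ w ∈ nbhd G r v, w ≠ v → par w ∈ nbhd G r v
  par_dist : ∀ w ∈ nbhd G r v, w ≠ v → G.dist v (par w) + 1 = G.dist v w
  idx_bij : ∀ u, Set.BijOn idx {w | w ∈ nbhd G r v ∧ w ≠ v ∧ par w = u}
    (Set.Iio {w | w ∈ nbhd G r v ∧ w ≠ v ∧ par w = u}.ncard)

theorem exists_enum [Finite V] (S : Set V) : ∃ f : V → ℕ, Set.BijOn f S (Set.Iio S.ncard) := by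
  classical
  have hfin : S.Finite := Set.toFinite S
  have : Fintype S := hfin.fintype
  have hc : Fintype.card S = S.ncard := by
    rw [Set.ncard_eq_toFinset_card' S, Set.toFinset_card]
  let e : S ≃ Fin S.ncard := Fintype.equivFinOfCardEq hc
  refine ⟨fun w => if h : w ∈ S then (e ⟨w, h⟩ : ℕ) else 0, ?_, ?_, ?_⟩
  · intro w hw
    simp only [hw, dif_pos, Set.mem_Iio]
    exact (e ⟨w, hw⟩).2
  · intro w hw w' hw' h
    simp only [hw, hw', dif_pos] at h
    have := e.injective (Fin.ext h)
    simpa using this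
  · intro i hi
    refine ⟨e.symm ⟨i, hi⟩, (e.symm ⟨i, hi⟩).2, ?_⟩
    simp

theorem exists_tr [Finite V] (G : SimpleGraph V) (r : ℕ) (v : V) : Nonempty (Tr G r v) := by
  classical
  let par : V → V := fun w =>
    if h : w ∈ nbhd G r v ∧ w ≠ v then Classical.choose (exists_parent h.1 h.2) else v
  have hpar : ∀ w, w ∈ nbhd G r v → w ≠ v →
      G.Adj (par w) w ∧ par w ∈ nbhd G r v ∧ G.dist v (par w) + 1 = G.dist v w := by
    intro w h1 h2
    have : par w = Classical.choose (exists_parent h1 h2) := by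
      simp only [par]
      rw [dif_pos ⟨h1, h2⟩]
    rw [this]
    exact Classical.choose_spec (exists_parent h1 h2)
  choose f hf using fun u => exists_enum {w | w ∈ nbhd G r v ∧ w ≠ v ∧ par w = u}
  refine ⟨⟨par, fun w => f (par w) w, ?_, fun w h1 h2 => (hpar w h1 h2).1,
    fun w h1 h2 => (hpar w h1 h2).2.1, fun w h1 h2 => (hpar w h1 h2).2.2, fun u => ?_⟩⟩
  · simp only [par]
    rw [dif_neg]
    simp
  · refine (hf u).congr ?_
    intro w hw
    have : par w = u := hw.2.2
    simp only [this]

namespace Tr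

variable {G : SimpleGraph V} {r : ℕ} {v : V} (T : Tr G r v)

/-- the children of `u` -/
def ch (u : V) : Set V := {w | w ∈ nbhd G r v ∧ w ≠ v ∧ T.par w = u}

/-- the address of `w` -/
noncomputable def addr (w : V) : List ℕ := (List.range (G.dist v w)).map (fun i => T.idx (T.par^[i] w))

/-- `a b` is a non-tree edge of the neighbourhood -/
def NT (a b : V) : Prop := a ∈ nbhd G r v ∧ b ∈ nbhd G r v ∧ G.Adj a b ∧ T.par a ≠ b ∧ T.par b ≠ a

/-- the addresses of the non-tree edges -/
def X : Set (List ℕ × List ℕ) := {p | ∃ a b, T.NT a b ∧ p = (T.addr a, T.addr b)}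

theorem addr_root : T.addr v = [] := by simp [addr]

theorem addr_length (w : V) : (T.addr w).length = G.dist v w := by simp [addr]

theorem addr_cons {w : V} (hw : w ∈ nbhd G r v) (hne : w ≠ v) :
    T.addr w = T.idx w :: T.addr (T.par w) := by
  unfold addr
  rw [← T.par_dist w hw hne, List.range_succ_eq_map, List.map_cons, List.map_map]
  rfl

theorem addr_inj {w w' : V} (hw : w ∈ nbhd G r v) (hw' : w' ∈ nbhd G r v)
    (h : T.addr w = T.addr w') : w = w' := by
  induction hk : G.dist v w generalizing w w' with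
  | zero =>
    have h1 : v = w := (mem_nbhd_iff.1 hw).1.dist_eq_zero_iff.1 hk
    have h2 : G.dist v w' = 0 := by rw [← T.addr_length, ← h, T.addr_length, hk]
    have h3 : v = w' := (mem_nbhd_iff.1 hw').1.dist_eq_zero_iff.1 h2
    rw [← h1, ← h3]
  | succ k ih =>
    have hne : w ≠ v := by
      rintro rfl
      simp at hk
    have h2 : G.dist v w' = k + 1 := by rw [← T.addr_length, ← h, T.addr_length, hk]
    have hne' : w' ≠ v := by
      rintro rfl
      simp at h2
    rw [T.addr_cons hw hne, T.addr_cons hw' hne', List.cons.injEq] at h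
    have h3 := T.par_dist w hw hne
    have h4 := ih (T.par_mem w hw hne) (T.par_mem w' hw' hne') h.2 (by omega)
    exact (T.idx_bij (T.par w')).injOn ⟨hw, hne, h4⟩ ⟨hw', hne', rfl⟩ h.1

open scoped Classical in
theorem nbhd_decomp {u : V} (hu : u ∈ nbhd G r v) (hlt : G.dist v u < r) :
    G.neighborSet u = ((if u = v then ∅ else {T.par u}) ∪ T.ch u) ∪ {b | T.NT u b} := by
  ext z
  rw [SimpleGraph.mem_neighborSet]
  constructor
  · intro h
    have hz := nbr_mem hu hlt h
    by_cases h1 : u ≠ v ∧ T.par u = z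
    · left; left
      rw [if_neg h1.1]
      exact h1.2.symm
    by_cases h2 : T.par z = u
    · left; right
      refine ⟨hz, ?_, h2⟩
      rintro rfl
      rw [T.par_root] at h2
      exact h.ne h2.symm
    · right
      refine ⟨hu, hz, h, ?_, h2⟩
      intro h3
      apply h1
      refine ⟨?_, h3⟩
      rintro rfl
      rw [T.par_root] at h3
      exact h.ne h3
  · rintro ((h | h) | h)
    · by_cases huv : u = v
      · rw [if_pos huv] at h; exact absurd h (Set.notMem_empty _)
      · rw [if_neg huv] at h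
        rw [Set.mem_singleton_iff] at h
        rw [h]
        exact (T.par_adj u hu huv).symm
    · have := T.par_adj z h.1 h.2.1
      rw [h.2.2] at this
      exact this
    · exact h.2.2.1

open scoped Classical in
theorem ch_ncard [Finite V] {d : ℕ} (hG : Reg G d) {u : V} (hu : u ∈ nbhd G r v)
    (hlt : G.dist v u < r) :
    d = ((if u = v then 0 else 1) + (T.ch u).ncard) + {b | T.NT u b}.ncard := by
  rw [← hG u, T.nbhd_decomp hu hlt, Set.ncard_union_eq, Set.ncard_union_eq]
  · congr 2
    by_cases huv : u = v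
    · simp [huv]
    · simp [huv]
  · rw [Set.disjoint_left]
    intro z hz hz'
    by_cases huv : u = v
    · rw [if_pos huv] at hz; exact absurd hz (Set.notMem_empty _)
    · rw [if_neg huv, Set.mem_singleton_iff] at hz
      obtain ⟨h1, h2, h3⟩ := hz'
      have e1 := T.par_dist u hu huv
      have e2 := T.par_dist z h1 h2
      rw [h3, hz] at e2
      omega
  · rw [Set.disjoint_left]
    rintro z (hz | hz) hz'
    · by_cases huv : u = v
      · rw [if_pos huv] at hz; exact absurd hz (Set.notMem_empty _)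
      · rw [if_neg huv, Set.mem_singleton_iff] at hz
        exact hz'.2.2.2.1 hz.symm
    · exact hz'.2.2.2.2 hz.2.2

theorem X_fiber {u : V} (hu : u ∈ nbhd G r v) :
    {l | (T.addr u, l) ∈ T.X}.ncard = {b | T.NT u b}.ncard := by
  have h : {l | (T.addr u, l) ∈ T.X} = T.addr '' {b | T.NT u b} := by
    ext l
    constructor
    · rintro ⟨a, b, hab, h⟩
      rw [Prod.mk.injEq] at h
      have := T.addr_inj hu hab.1 h.1
      subst this
      exact ⟨b, hab, h.2.symm⟩
    · rintro ⟨b, hb, rfl⟩
      exact ⟨u, b, hb, rfl⟩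
  rw [h]
  apply Set.InjOn.ncard_image
  intro a ha b hb hab
  exact T.addr_inj ha.2.1 hb.2.1 hab

/-- the set of addresses -/
def A : Set (List ℕ) := T.addr '' nbhd G r v

theorem nil_mem : [] ∈ T.A := ⟨v, mem_nbhd_self G r v, T.addr_root⟩

open scoped Classical in
theorem cons_mem_iff [Finite V] {d : ℕ} (hG : Reg G d) (i : ℕ) (l : List ℕ) :
    i :: l ∈ T.A ↔ l ∈ T.A ∧ l.length < r ∧
      i + ((if l = [] then 0 else 1) + {l' | (l, l') ∈ T.X}.ncard) < d := by
  constructor
  · rintro ⟨w, hw, h⟩
    have hne : w ≠ v := by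
      rintro rfl
      rw [T.addr_root] at h
      exact absurd h (by simp)
    rw [T.addr_cons hw hne, List.cons.injEq] at h
    obtain ⟨h1, h2⟩ := h
    have hm := T.par_mem w hw hne
    have hd := T.par_dist w hw hne
    have hle := (mem_nbhd_iff.1 hw).2
    refine ⟨⟨_, hm, h2⟩, ?_, ?_⟩
    · rw [← h2, T.addr_length]; omega
    · have h3 := T.ch_ncard hG hm (by omega)
      have h4 : T.idx w < (T.ch (T.par w)).ncard :=
        (T.idx_bij (T.par w)).mapsTo ⟨hw, hne, rfl⟩
      rw [← h2, T.X_fiber hm, ← h1]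
      have h5 : (if T.addr (T.par w) = [] then 0 else 1) = if T.par w = v then 0 else 1 := by
        by_cases hv : T.par w = v
        · rw [if_pos hv, hv, T.addr_root, if_pos rfl]
        · rw [if_neg hv, if_neg]
          intro h6
          rw [← T.addr_root] at h6
          exact hv (T.addr_inj hm (mem_nbhd_self G r v) h6)
      rw [h5]
      omega
  · rintro ⟨⟨u, hu, rfl⟩, hlen, hi⟩
    rw [T.addr_length] at hlen
    have h3 := T.ch_ncard hG hu hlen
    rw [T.X_fiber hu] at hi
    have h5 : (if T.addr u = [] then 0 else 1) = if u = v then 0 else 1 := by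
      by_cases hv : u = v
      · rw [if_pos hv, hv, T.addr_root, if_pos rfl]
      · rw [if_neg hv, if_neg]
        intro h6
        rw [← T.addr_root] at h6
        exact hv (T.addr_inj hu (mem_nbhd_self G r v) h6)
    rw [h5] at hi
    have h6 : i ∈ Set.Iio (T.ch u).ncard := by
      rw [Set.mem_Iio]; omega
    obtain ⟨w, ⟨hw1, hw2, hw3⟩, hw4⟩ := (T.idx_bij u).surjOn h6
    refine ⟨w, hw1, ?_⟩
    rw [T.addr_cons hw1 hw2, hw3, hw4]

theorem adj_iff {a b : V} (ha : a ∈ nbhd G r v) (hb : b ∈ nbhd G r v) :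
    G.Adj a b ↔ (∃ i, T.addr a = i :: T.addr b) ∨ (∃ i, T.addr b = i :: T.addr a) ∨
      (T.addr a, T.addr b) ∈ T.X := by
  constructor
  · intro h
    by_cases h1 : T.par a = b
    · left
      have hne : a ≠ v := by
        rintro rfl
        rw [T.par_root] at h1
        exact h.ne h1
      exact ⟨T.idx a, by rw [T.addr_cons ha hne, h1]⟩
    by_cases h2 : T.par b = a
    · right; left
      have hne : b ≠ v := by
        rintro rfl
        rw [T.par_root] at h2
        exact h.ne h2.symm
      exact ⟨T.idx b, by rw [T.addr_cons hb hne, h2]⟩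
    · right; right
      exact ⟨a, b, ⟨ha, hb, h, h1, h2⟩, rfl⟩
  · rintro (⟨i, h⟩ | ⟨i, h⟩ | ⟨a', b', h, h'⟩)
    · have hne : a ≠ v := by
        rintro rfl
        rw [T.addr_root] at h
        exact absurd h (by simp)
      rw [T.addr_cons ha hne, List.cons.injEq] at h
      have := T.addr_inj (T.par_mem a ha hne) hb h.2
      rw [← this]
      exact (T.par_adj a ha hne).symm
    · have hne : b ≠ v := by
        rintro rfl
        rw [T.addr_root] at h
        exact absurd h (by simp)
      rw [T.addr_cons hb hne, List.cons.injEq] at h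
      have := T.addr_inj (T.par_mem b hb hne) ha h.2
      rw [← this]
      exact T.par_adj b hb hne
    · rw [Prod.mk.injEq] at h'
      have e1 := T.addr_inj ha h.1 h'.1
      have e2 := T.addr_inj hb h.2.1 h'.2
      rw [e1, e2]
      exact h.2.2.1

theorem A_eq {W : Type} [Finite V] [Finite W] {H : SimpleGraph W} {w : W} {d : ℕ}
    (hG : Reg G d) (hH : Reg H d) (T' : Tr H r w) (h : T.X = T'.X) : T.A = T'.A := by
  ext l
  induction l with
  | nil => exact ⟨fun _ => T'.nil_mem, fun _ => T.nil_mem⟩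
  | cons i l ih => rw [T.cons_mem_iff hG, T'.cons_mem_iff hH, ih, h]

theorem iso_of_X {W : Type} [Finite V] [Finite W] {H : SimpleGraph W} {w : W} {d : ℕ}
    (hG : Reg G d) (hH : Reg H d) (T' : Tr H r w) (h : T.X = T'.X) : NbhdIso r G v H w := by
  have hA := T.A_eq hG hH T' h
  have hi : Set.InjOn T.addr (nbhd G r v) := fun a ha b hb hab => T.addr_inj ha hb hab
  have hi' : Set.InjOn T'.addr (nbhd H r w) := fun a ha b hb hab => T'.addr_inj ha hb hab
  let e1 : nbhd G r v ≃ T.A := Equiv.Set.imageOfInjOn T.addr _ hi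
  let e2 : nbhd H r w ≃ T'.A := Equiv.Set.imageOfInjOn T'.addr _ hi'
  let e : nbhd G r v ≃ nbhd H r w := (e1.trans (Equiv.setCongr hA)).trans e2.symm
  have he : ∀ a : nbhd G r v, T'.addr (e a) = T.addr a := by
    intro a
    have h1 : e2 (e a) = (Equiv.setCongr hA) (e1 a) := by
      simp only [e, Equiv.trans_apply, Equiv.apply_symm_apply]
    have h2 := congrArg Subtype.val h1
    exact h2
  refine ⟨⟨e, ?_⟩, ?_⟩
  · intro a b
    rw [SimpleGraph.comap_adj, SimpleGraph.comap_adj]
    change H.Adj (e a) (e b) ↔ G.Adj a b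
    rw [T'.adj_iff (e a).2 (e b).2, T.adj_iff a.2 b.2, he, he, h]
  · apply Subtype.ext
    change ((e ⟨v, mem_nbhd_self G r v⟩ : nbhd H r w) : W) = w
    apply T'.addr_inj (e _).2 (mem_nbhd_self H r w)
    rw [he, T'.addr_root]
    exact T.addr_root

end Tr

end Pool.Agent.H336R3.Shot
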