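import Pool.Agent.H336R3.SwitchB

set_option autoImplicit false

/-! Existence of `d`-regular graphs and a lower bound for their number. -/

namespace Pool.Agent.H336R3.Shot

open Finset

theorem exists_conn {n : ℕ} [NeZero n] (d : ℕ) (hd : d + 1 < n) (he : Even (n * d)) :
    ∃ S : Finset (ZMod n), (0 : ZMod n) ∉ S ∧ (∀ x ∈ S, -x ∈ S) ∧ S.card = d := by
  classical
  have hn : 0 < n := NeZero.pos n
  induction d using Nat.strong_induction_on with
  | _ d ih =>
    rcases d with _ | _ | d
    · exact ⟨∅, by simp, by simp, rfl⟩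
    · -- n even
      rw [zero_add, mul_one] at he
      obtain ⟨m, hm⟩ := he
      refine ⟨{((m : ℕ) : ZMod n)}, ?_, ?_, by simp⟩
      · rw [mem_singleton]
        intro h
        have h1 := (ZMod.natCast_eq_zero_iff m n).1 h.symm
        have := Nat.le_of_dvd (by omega) h1
        omega
      · intro x hx
        rw [mem_singleton] at hx ⊢
        rw [hx, neg_eq_iff_add_eq_zero, ← Nat.cast_add, ← hm, ZMod.natCast_self]
    · have he' : Even (n * d) := by
        have : n * (d + 1 + 1) = n * d + 2 * n := by ring
        rw [this] at he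
        rcases he with ⟨k, hk⟩
        exact ⟨k - n, by omega⟩
      obtain ⟨S, h0, hneg, hcard⟩ := ih d (by omega) (by omega) he'
      set T := univ \ (insert 0 S) with hT
      have hTc : 1 < T.card := by
        have h1 := le_card_sdiff (insert 0 S) (univ : Finset (ZMod n))
        have h2 : (univ : Finset (ZMod n)).card = n := by
          rw [card_univ, ZMod.card]
        rw [h2, card_insert_of_notMem h0, hcard] at h1
        rw [hT]
        omega
      obtain ⟨a, ha, b, hb, hab⟩ := one_lt_card.1 hTc
      have key : ∃ x ∈ T, -x ≠ x := by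
        by_contra hcon
        push Not at hcon
        have h1 := (ZMod.neg_eq_self_iff a).1 (hcon a ha)
        have h2 := (ZMod.neg_eq_self_iff b).1 (hcon b hb)
        rw [hT, mem_sdiff, mem_insert, not_or] at ha hb
        rcases h1 with h1 | h1
        · exact ha.2.1 h1
        rcases h2 with h2 | h2
        · exact hb.2.1 h2
        exact hab (ZMod.val_injective n (by omega))
      obtain ⟨x, hx, hxn⟩ := key
      rw [hT, mem_sdiff, mem_insert, not_or] at hx
      obtain ⟨_, hx0, hxS⟩ := hx
      have hnx : -x ∉ S := fun h => hxS (by simpa using hneg _ h)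
      refine ⟨insert x (insert (-x) S), ?_, ?_, ?_⟩
      · simp only [mem_insert, not_or]
        exact ⟨fun h => hx0 h.symm, fun h => hx0 (by rw [← neg_eq_zero]; exact h.symm), h0⟩
      · intro y hy
        simp only [mem_insert] at hy ⊢
        rcases hy with rfl | rfl | hy
        · right; left; rfl
        · left; simp
        · right; right; exact hneg y hy
      · rw [card_insert_of_notMem, card_insert_of_notMem hnx, hcard]
        rw [mem_insert, not_or]
        exact ⟨fun h => hxn h.symm, hxS⟩

theorem exists_reg {n d : ℕ} (hd : d + 1 < n) (he : Even (n * d)) :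
    ∃ G : SimpleGraph (Fin n), Reg G d := by
  classical
  have hn : n ≠ 0 := by omega
  have : NeZero n := ⟨hn⟩
  obtain ⟨S, h0, hneg, hcard⟩ := exists_conn d hd he
  have e : Fin n ≃ ZMod n := Fintype.equivOfCardEq (by rw [Fintype.card_fin, ZMod.card])
  let H : SimpleGraph (ZMod n) :=
    { Adj := fun a b => b - a ∈ S
      symm := ⟨fun a b h => by
        have := hneg _ h
        rwa [neg_sub] at this⟩
      loopless := ⟨fun a h => h0 (by rwa [sub_self] at h)⟩ }
  refine ⟨H.comap e, fun v => ?_⟩
  have h1 : (H.comap e).neighborSet v = (fun s => e.symm (e v + s)) '' (S : Set (ZMod n)) := by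
    ext w
    rw [SimpleGraph.mem_neighborSet, SimpleGraph.comap_adj, Set.mem_image]
    constructor
    · intro h
      exact ⟨e w - e v, h, by simp⟩
    · rintro ⟨s, hs, rfl⟩
      change e (e.symm (e v + s)) - e v ∈ S
      simpa using hs
  rw [h1, Set.ncard_image_of_injective, Set.ncard_coe_finset, hcard]
  intro s t h
  simpa using h

theorem RG_nonempty {n d : ℕ} (hd : d + 1 < n) (he : Even (n * d)) : 0 < (RG n d).card := by
  obtain ⟨G, hG⟩ := exists_reg hd he
  exact card_pos.2 ⟨G, by simp [RG, hG]⟩

/-- a lower bound for the number of regular graphs -/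
theorem RG_lower {n d : ℕ} (h2 : 8 * (d + 1) ≤ n) (he : Even (n * d)) :
    n ^ (n * d / 8) ≤ (2 * d) ^ (n * d / 8) * (RG n d).card := by
  classical
  obtain ⟨G, hG⟩ := exists_reg (by omega) he
  have hdeg : ∀ v, G.degree v = d := by
    intro v
    have h := hG v
    rw [Set.ncard_eq_toFinset_card'] at h
    rw [← h]
    rfl
  have hsum := G.sum_degrees_eq_twice_card_edges
  rw [sum_congr rfl (fun v _ => hdeg v), sum_const, card_univ, Fintype.card_fin, smul_eq_mul] at hsum
  obtain ⟨E, hE, hEc⟩ := exists_subset_card_eq (s := G.edgeFinset) (n := n * d / 8) (by omega)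
  have hb := switch_bound h2 E (fun e h => by
    have := hE h
    rw [SimpleGraph.mem_edgeFinset] at this
    exact G.not_isDiag_of_mem_edgeSet this) (by rw [hEc]; omega)
  have hpos : 1 ≤ (RGE n d E).card := by
    apply card_pos.2
    refine ⟨G, ?_⟩
    rw [RGE, mem_filter]
    exact ⟨mem_univ _, hG, fun e h => SimpleGraph.mem_edgeFinset.1 (hE h)⟩
  rw [hEc] at hb
  calc n ^ (n * d / 8) = n ^ (n * d / 8) * 1 := by ring
    _ ≤ n ^ (n * d / 8) * (RGE n d E).card := Nat.mul_le_mul_left _ hpos
    _ ≤ _ := hb

end Pool.Agent.H336R3.Shot
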