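import Pool.Agent.H336R3.Addr
import Pool.Agent.H336R3.Exist

set_option autoImplicit false

/-! Non-tree edges of neighbourhoods give tuples spanning at least as many edges as vertices. -/

namespace Pool.Agent.H336R3.Shot

open Finset

variable {n : ℕ}

/-- index type: two sequences of length `r + 1` -/
abbrev Ix (r : ℕ) := Fin (r + 1) ⊕ Fin (r + 1)

open scoped Classical in
/-- the edges spanned by consecutive entries of the two sequences and by their first entries -/
noncomputable def skel (r : ℕ) (f : Ix r → Fin n) : Finset (Sym2 (Fin n)) :=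
  (((univ.image (fun i : Fin r => s(f (Sum.inl i.castSucc), f (Sum.inl i.succ)))) ∪
    (univ.image (fun i : Fin r => s(f (Sum.inr i.castSucc), f (Sum.inr i.succ))))) ∪
    {s(f (Sum.inl 0), f (Sum.inr 0))}).filter (fun e => ¬ e.IsDiag)

open scoped Classical in
/-- the entries -/
noncomputable def im (r : ℕ) (f : Ix r → Fin n) : Finset (Fin n) := univ.image f

open scoped Classical in
/-- tuples which could be bad -/
noncomputable def Tup (n r : ℕ) : Finset (Ix r → Fin n) :=
  univ.filter (fun f => f (Sum.inl (Fin.last r)) = f (Sum.inr (Fin.last r)) ∧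
    (im r f).card ≤ (skel r f).card)

open scoped Classical in
/-- the bad tuples of `G` -/
noncomputable def Bad (r : ℕ) (G : SimpleGraph (Fin n)) : Finset (Ix r → Fin n) :=
  (Tup n r).filter (fun f => ∀ e ∈ skel r f, e ∈ G.edgeSet)

theorem skel_card_le (r : ℕ) (f : Ix r → Fin n) : (skel r f).card ≤ 2 * r + 1 := by
  classical
  unfold skel
  refine (card_filter_le _ _).trans ((card_union_le _ _).trans ?_)
  have h1 := card_union_le (univ.image (fun i : Fin r => s(f (Sum.inl i.castSucc), f (Sum.inl i.succ))))
    (univ.image (fun i : Fin r => s(f (Sum.inr i.castSucc), f (Sum.inr i.succ))))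
  have h2 := card_image_le (s := (univ : Finset (Fin r)))
    (f := fun i : Fin r => s(f (Sum.inl i.castSucc), f (Sum.inl i.succ)))
  have h3 := card_image_le (s := (univ : Finset (Fin r)))
    (f := fun i : Fin r => s(f (Sum.inr i.castSucc), f (Sum.inr i.succ)))
  rw [card_univ, Fintype.card_fin] at h2 h3
  rw [card_singleton]
  omega

theorem skel_not_diag (r : ℕ) (f : Ix r → Fin n) : ∀ e ∈ skel r f, ¬ e.IsDiag := by
  classical
  intro e he
  exact (mem_filter.1 he).2

theorem im_card_le {r : ℕ} {f : Ix r → Fin n}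
    (h : f (Sum.inl (Fin.last r)) = f (Sum.inr (Fin.last r))) : (im r f).card ≤ 2 * r + 1 := by
  classical
  have : im r f = (univ.erase (Sum.inr (Fin.last r))).image f := by
    unfold im
    ext x
    simp only [mem_image, mem_univ, true_and, mem_erase, and_true]
    constructor
    · rintro ⟨a, rfl⟩
      by_cases ha : a = Sum.inr (Fin.last r)
      · exact ⟨Sum.inl (Fin.last r), by simp, by rw [ha, h]⟩
      · exact ⟨a, ha, rfl⟩
    · rintro ⟨a, _, rfl⟩
      exact ⟨a, rfl⟩
  rw [this]
  refine card_image_le.trans ?_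
  rw [card_erase_of_mem (mem_univ _), card_univ]
  simp
  omega

namespace Tr

variable {G : SimpleGraph (Fin n)} {r : ℕ} {v : Fin n} (T : Tr G r v)

theorem iter_mem {w : Fin n} (hw : w ∈ nbhd G r v) (i : ℕ) :
    T.par^[i] w ∈ nbhd G r v ∧ G.dist v (T.par^[i] w) = G.dist v w - i := by
  induction i with
  | zero => exact ⟨hw, by simp⟩
  | succ i ih =>
    rw [Function.iterate_succ_apply']
    obtain ⟨h1, h2⟩ := ih
    by_cases hv : T.par^[i] w = v
    · rw [hv, T.par_root]
      refine ⟨mem_nbhd_self G r v, ?_⟩
      rw [hv] at h2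
      have : G.dist v v = 0 := by simp
      omega
    · refine ⟨T.par_mem _ h1 hv, ?_⟩
      have := T.par_dist _ h1 hv
      omega

theorem iter_last {w : Fin n} (hw : w ∈ nbhd G r v) : T.par^[r] w = v := by
  obtain ⟨h1, h2⟩ := T.iter_mem hw r
  have h3 := (mem_nbhd_iff.1 hw).2
  have h4 : G.dist v (T.par^[r] w) = 0 := by omega
  exact ((mem_nbhd_iff.1 h1).1.dist_eq_zero_iff.1 h4).symm

/-- the tuple of a pair -/
noncomputable def tup (a b : Fin n) : Ix r → Fin n :=
  Sum.elim (fun i => T.par^[i] a) (fun i => T.par^[i] b)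

theorem edge_inj {w w' : Fin n} (hw : w ∈ nbhd G r v) (hne : w ≠ v) (hw' : w' ∈ nbhd G r v)
    (hne' : w' ≠ v) (h : s(w, T.par w) = s(w', T.par w')) : w = w' := by
  rw [Sym2.eq_iff] at h
  rcases h with h | h
  · exact h.1
  · exfalso
    have h1 := T.par_dist w hw hne
    have h2 := T.par_dist w' hw' hne'
    rw [h.2] at h1
    rw [← h.1] at h2
    omega

theorem tup_mem {a b : Fin n} (h : T.NT a b) : T.tup a b ∈ Bad r G := by
  classical
  obtain ⟨ha, hb, hab, hpa, hpb⟩ := h
  have hlast1 : T.tup a b (Sum.inl (Fin.last r)) = v := by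
    simp only [tup, Sum.elim_inl, Fin.val_last]
    exact T.iter_last ha
  have hlast2 : T.tup a b (Sum.inr (Fin.last r)) = v := by
    simp only [tup, Sum.elim_inr, Fin.val_last]
    exact T.iter_last hb
  have hfirst : s(a, b) ∈ skel r (T.tup a b) := by
    unfold skel
    rw [mem_filter]
    refine ⟨mem_union_right _ ?_, ?_⟩
    · rw [mem_singleton]
      simp [tup]
    · rw [Sym2.mk_isDiag_iff]
      exact hab.ne
  -- the entries are in the ball
  have hent : ∀ w ∈ im r (T.tup a b), w ∈ nbhd G r v ∧ (w ≠ v → s(w, T.par w) ∈ skel r (T.tup a b)) := by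
    intro w hw
    unfold im at hw
    rw [mem_image] at hw
    obtain ⟨j, _, hj⟩ := hw
    rcases j with j | j
    · have hj' : T.par^[(j : ℕ)] a = w := by rw [← hj]; simp [tup]
      have hwm : w ∈ nbhd G r v := by rw [← hj']; exact (T.iter_mem ha j).1
      refine ⟨hwm, fun hne => ?_⟩
      have hlt : (j : ℕ) < r := by
        rcases Nat.lt_or_ge (j : ℕ) r with h | h
        · exact h
        · exfalso
          apply hne
          have : (j : ℕ) = r := le_antisymm (Nat.lt_succ_iff.1 j.2) h
          rw [← hj', this]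
          exact T.iter_last ha
      unfold skel
      rw [mem_filter]
      refine ⟨mem_union_left _ (mem_union_left _ ?_), ?_⟩
      · rw [mem_image]
        refine ⟨⟨j, hlt⟩, mem_univ _, ?_⟩
        simp only [tup, Sum.elim_inl, Fin.castSucc_mk, Fin.succ_mk, Function.iterate_succ_apply', hj']
      · rw [Sym2.mk_isDiag_iff]
        exact (T.par_adj w hwm hne).ne.symm
    · have hj' : T.par^[(j : ℕ)] b = w := by rw [← hj]; simp [tup]
      have hwm : w ∈ nbhd G r v := by rw [← hj']; exact (T.iter_mem hb j).1
      refine ⟨hwm, fun hne => ?_⟩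
      have hlt : (j : ℕ) < r := by
        rcases Nat.lt_or_ge (j : ℕ) r with h | h
        · exact h
        · exfalso
          apply hne
          have : (j : ℕ) = r := le_antisymm (Nat.lt_succ_iff.1 j.2) h
          rw [← hj', this]
          exact T.iter_last hb
      unfold skel
      rw [mem_filter]
      refine ⟨mem_union_left _ (mem_union_right _ ?_), ?_⟩
      · rw [mem_image]
        refine ⟨⟨j, hlt⟩, mem_univ _, ?_⟩
        simp only [tup, Sum.elim_inr, Fin.castSucc_mk, Fin.succ_mk, Function.iterate_succ_apply', hj']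
      · rw [Sym2.mk_isDiag_iff]
        exact (T.par_adj w hwm hne).ne.symm
  unfold Bad Tup
  rw [mem_filter, mem_filter]
  refine ⟨⟨mem_univ _, by rw [hlast1, hlast2], ?_⟩, ?_⟩
  · have hvim : v ∈ im r (T.tup a b) := by
      unfold im
      rw [mem_image]
      exact ⟨_, mem_univ _, hlast1⟩
    have hsub : insert s(a, b) (((im r (T.tup a b)).erase v).image (fun w => s(w, T.par w))) ⊆
        skel r (T.tup a b) := by
      intro e he
      rw [mem_insert, mem_image] at he
      rcases he with rfl | ⟨w, hw, rfl⟩
      · exact hfirst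
      · rw [mem_erase] at hw
        exact (hent w hw.2).2 hw.1
    have hnot : s(a, b) ∉ ((im r (T.tup a b)).erase v).image (fun w => s(w, T.par w)) := by
      intro h
      rw [mem_image] at h
      obtain ⟨w, hw, h⟩ := h
      rw [Sym2.eq_iff] at h
      rcases h with ⟨h1, h2⟩ | ⟨h1, h2⟩
      · exact hpa (h1 ▸ h2)
      · exact hpb (h1 ▸ h2)
    have h1 := card_le_card hsub
    rw [card_insert_of_notMem hnot, card_image_of_injOn, card_erase_of_mem hvim] at h1
    · have := card_pos.2 ⟨v, hvim⟩
      omega
    · intro w hw w' hw' hww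
      rw [mem_coe, mem_erase] at hw hw'
      exact T.edge_inj (hent w hw.2).1 hw.1 (hent w' hw'.2).1 hw'.1 hww
  · have hedge : ∀ w ∈ nbhd G r v, ¬ (s(w, T.par w)).IsDiag → s(w, T.par w) ∈ G.edgeSet := by
      intro w hw hd
      by_cases hv : w = v
      · exfalso
        apply hd
        rw [hv, T.par_root]
        simp
      · rw [Sym2.eq_swap]
        exact T.par_adj w hw hv
    intro e he
    unfold skel at he
    rw [mem_filter, mem_union, mem_union, mem_image, mem_image, mem_singleton] at he
    obtain ⟨(⟨i, _, hi⟩ | ⟨i, _, hi⟩) | hi, hd⟩ := he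
    · simp only [tup, Sum.elim_inl, Fin.val_castSucc, Fin.val_succ, Function.iterate_succ_apply'] at hi
      rw [← hi] at hd ⊢
      exact hedge _ (T.iter_mem ha i).1 hd
    · simp only [tup, Sum.elim_inr, Fin.val_castSucc, Fin.val_succ, Function.iterate_succ_apply'] at hi
      rw [← hi] at hd ⊢
      exact hedge _ (T.iter_mem hb i).1 hd
    · rw [hi]
      simpa [tup] using hab

end Tr

end Pool.Agent.H336R3.Shot
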