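import Pool.Agent.H336R3.Bad

set_option autoImplicit false

/-! Counting bad tuples and codes. -/

namespace Pool.Agent.H336R3.Shot

open Finset

variable {n : ℕ}

/-- functions with an image of `t` elements -/
theorem card_image_eq_le {ι : Type} [Fintype ι] [DecidableEq ι] (n t : ℕ) :
    (univ.filter (fun f : ι → Fin n => (univ.image f).card = t)).card ≤
      n ^ t * t ^ Fintype.card ι := by
  classical
  have hsub : (univ.filter (fun f : ι → Fin n => (univ.image f).card = t)) ⊆
      (univ : Finset ((Fin t → Fin n) × (ι → Fin t))).image (fun p => p.1 ∘ p.2) := by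
    intro f hf
    rw [mem_filter] at hf
    rw [mem_image]
    let e : (univ.image f) ≃ Fin t := Finset.equivFinOfCardEq hf.2
    refine ⟨(fun i => (e.symm i : Fin n), fun i => e ⟨f i, mem_image_of_mem f (mem_univ i)⟩),
      mem_univ _, ?_⟩
    funext i
    simp
  refine (card_le_card hsub).trans (card_image_le.trans ?_)
  rw [card_univ, Fintype.card_prod, Fintype.card_fun, Fintype.card_fun, Fintype.card_fin,
    Fintype.card_fin]

/-- the constant in the bound for the number of bad tuples -/
def Cst (r : ℕ) : ℕ := (2 * r + 2) * (2 * r + 1) ^ (2 * r + 2) * 2 ^ (2 * r + 1)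

/-- the expected number of bad tuples -/
theorem sum_bad_le {r d : ℕ} (hd : 1 ≤ d) (h2 : 8 * (d + 1) ≤ n) (h3 : 8 * (2 * r + 1) ≤ n * d) :
    ∑ G ∈ RG n d, ((Bad r G).card : ℝ) ≤ Cst r * d ^ (2 * r + 1) * (RG n d).card := by
  classical
  have hn : (0 : ℝ) < n := by
    have : 0 < n := by omega
    exact_mod_cast this
  set ρ : ℝ := 2 * d / n with hρ
  have hρ0 : 0 ≤ ρ := by positivity
  have hρ1 : ρ ≤ 1 := by
    rw [hρ, div_le_one hn]
    have : 2 * d ≤ n := by omega
    exact_mod_cast this
  -- exchange the sums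
  have e1 : ∑ G ∈ RG n d, ((Bad r G).card : ℝ) = ∑ f ∈ Tup n r, ((RGE n d (skel r f)).card : ℝ) := by
    have h4 : ∀ G : SimpleGraph (Fin n), ((Bad r G).card : ℝ) =
        ∑ f ∈ Tup n r, if (∀ e ∈ skel r f, e ∈ G.edgeSet) then (1 : ℝ) else 0 := by
      intro G
      unfold Bad
      rw [card_filter]
      push_cast
      rfl
    have h5 : ∀ f : Ix r → Fin n, ((RGE n d (skel r f)).card : ℝ) =
        ∑ G ∈ RG n d, if (∀ e ∈ skel r f, e ∈ G.edgeSet) then (1 : ℝ) else 0 := by
      intro f
      have : RGE n d (skel r f) = (RG n d).filter (fun G => ∀ e ∈ skel r f, e ∈ G.edgeSet) := by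
        ext G
        simp [RGE, RG]
      rw [this, card_filter]
      push_cast
      rfl
    rw [sum_congr rfl (fun G _ => h4 G), sum_congr rfl (fun f _ => h5 f), sum_comm]
  have hN : (0 : ℝ) ≤ (RG n d).card := by positivity
  have h6 : ∀ f ∈ Tup n r, ((RGE n d (skel r f)).card : ℝ) ≤ ρ ^ (im r f).card * (RG n d).card := by
    intro f hf
    unfold Tup at hf
    rw [mem_filter] at hf
    have hs := skel_card_le r f
    have h7 := switch_bound h2 (skel r f) (skel_not_diag r f) (by omega)
    have h8 : (n : ℝ) ^ (skel r f).card * ((RGE n d (skel r f)).card : ℝ) ≤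
        (2 * d) ^ (skel r f).card * (RG n d).card := by exact_mod_cast h7
    have h9 : ((RGE n d (skel r f)).card : ℝ) ≤ ρ ^ (skel r f).card * (RG n d).card := by
      rw [hρ, div_pow, div_mul_eq_mul_div, le_div_iff₀ (by positivity)]
      linarith
    refine h9.trans (mul_le_mul_of_nonneg_right ?_ hN)
    exact pow_le_pow_of_le_one hρ0 hρ1 hf.2.2
  rw [e1]
  refine (sum_le_sum h6).trans ?_
  rw [← sum_mul]
  refine mul_le_mul_of_nonneg_right ?_ hN
  -- group by the size of the image
  have h10 : ∑ f ∈ Tup n r, ρ ^ (im r f).card =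
      ∑ t ∈ range (2 * r + 2), ∑ f ∈ (Tup n r).filter (fun f => (im r f).card = t), ρ ^ (im r f).card := by
    rw [sum_fiberwise_of_maps_to]
    intro f hf
    unfold Tup at hf
    rw [mem_filter] at hf
    have := im_card_le hf.2.1
    rw [mem_range]
    omega
  rw [h10]
  have h11 : ∀ t ∈ range (2 * r + 2), ∑ f ∈ (Tup n r).filter (fun f => (im r f).card = t),
      ρ ^ (im r f).card ≤ (2 * r + 1 : ℝ) ^ (2 * r + 2) * (2 * d : ℝ) ^ (2 * r + 1) := by
    intro t ht
    rw [mem_range] at ht
    have h12 : ∑ f ∈ (Tup n r).filter (fun f => (im r f).card = t), ρ ^ (im r f).card =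
        ((Tup n r).filter (fun f => (im r f).card = t)).card * ρ ^ t := by
      rw [← nsmul_eq_mul, ← sum_const]
      apply sum_congr rfl
      intro f hf
      rw [(mem_filter.1 hf).2]
    have h13 : (((Tup n r).filter (fun f => (im r f).card = t)).card : ℝ) ≤
        (n : ℝ) ^ t * (t : ℝ) ^ (2 * r + 2) := by
      have h14 := card_image_eq_le (ι := Ix r) n t
      have h15 : ((Tup n r).filter (fun f => (im r f).card = t)).card ≤
          (univ.filter (fun f : Ix r → Fin n => (univ.image f).card = t)).card := by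
        apply card_le_card
        intro f hf
        rw [mem_filter] at hf ⊢
        exact ⟨mem_univ _, hf.2⟩
      have h16 : Fintype.card (Ix r) = 2 * r + 2 := by
        rw [Fintype.card_sum, Fintype.card_fin]; omega
      rw [h16] at h14
      exact_mod_cast h15.trans h14
    rw [h12]
    have hd1 : (1 : ℝ) ≤ 2 * d := by
      have : (1 : ℝ) ≤ d := by exact_mod_cast hd
      linarith
    calc (((Tup n r).filter (fun f => (im r f).card = t)).card : ℝ) * ρ ^ t
        ≤ ((n : ℝ) ^ t * (t : ℝ) ^ (2 * r + 2)) * ρ ^ t :=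
          mul_le_mul_of_nonneg_right h13 (by positivity)
      _ = (t : ℝ) ^ (2 * r + 2) * (2 * d : ℝ) ^ t := by
          rw [hρ, div_pow]
          field_simp
      _ ≤ (2 * r + 1 : ℝ) ^ (2 * r + 2) * (2 * d : ℝ) ^ (2 * r + 1) := by
          apply mul_le_mul
          · apply pow_le_pow_left₀ (by positivity)
            have : t ≤ 2 * r + 1 := by omega
            exact_mod_cast this
          · exact pow_le_pow_right₀ hd1 (by omega)
          · positivity
          · positivity
  refine (sum_le_sum h11).trans (le_of_eq ?_)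
  rw [sum_const, card_range, nsmul_eq_mul]
  unfold Cst
  push_cast
  rw [mul_pow]
  ring

/-- the number of small subsets -/
theorem card_small_subsets (α : Type) [Fintype α] [DecidableEq α] (s : ℕ) :
    ((univ : Finset (Finset α)).filter (fun S => S.card ≤ s)).card ≤ (Fintype.card α + 1) ^ s := by
  classical
  have hsub : ((univ : Finset (Finset α)).filter (fun S => S.card ≤ s)) ⊆
      (univ : Finset (Fin s → Option α)).image (fun f => univ.filter (fun x => ∃ i, f i = some x)) := by
    intro S hS
    rw [mem_filter] at hS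
    rw [mem_image]
    refine ⟨fun i => S.toList[(i : ℕ)]?, mem_univ _, ?_⟩
    ext x
    rw [mem_filter]
    constructor
    · rintro ⟨_, i, hi⟩
      rw [← mem_toList]
      exact List.mem_of_getElem? hi
    · intro hx
      refine ⟨mem_univ _, ?_⟩
      rw [← mem_toList] at hx
      obtain ⟨i, hi, hix⟩ := List.mem_iff_getElem.1 hx
      have h1 := hi
      rw [length_toList] at h1
      exact ⟨⟨i, by omega⟩, by simp [List.getElem?_eq_getElem hi, hix]⟩
  refine (card_le_card hsub).trans (card_image_le.trans ?_)
  rw [card_univ, Fintype.card_fun, Fintype.card_option, Fintype.card_fin]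

/-- encoding of an address by a function -/
def enc (n r : ℕ) (l : List ℕ) : Fin r → Fin (n + 1) := fun i => Fin.ofNat (n + 1) (l.getD i n)

theorem enc_inj {r : ℕ} {l l' : List ℕ} (h : l.length ≤ r) (h' : l'.length ≤ r)
    (hl : ∀ x ∈ l, x < n) (hl' : ∀ x ∈ l', x < n) (he : enc n r l = enc n r l') : l = l' := by
  have hle : ∀ m : List ℕ, (∀ x ∈ m, x < n) → ∀ i : ℕ, m.getD i n ≤ n ∧ (i < m.length → m.getD i n < n) ∧
      (m.length ≤ i → m.getD i n = n) := by
    intro m hm i
    by_cases hi : i < m.length
    · rw [List.getD_eq_getElem _ _ hi]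
      have := hm _ (List.getElem_mem hi)
      exact ⟨this.le, fun _ => this, fun h => by omega⟩
    · have e := List.getD_eq_default (l := m) (d := n) (n := i) (by omega)
      rw [e]
      exact ⟨le_rfl, fun h => absurd h hi, fun _ => rfl⟩
  have hval : ∀ i < r, l.getD i n = l'.getD i n := by
    intro i hi
    have h1 := congrArg Fin.val (congrFun he ⟨i, hi⟩)
    simp only [enc, Fin.ofNat] at h1
    rw [Nat.mod_eq_of_lt (Nat.lt_succ_of_le (hle l hl i).1),
      Nat.mod_eq_of_lt (Nat.lt_succ_of_le (hle l' hl' i).1)] at h1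
    exact h1
  have hlen : l.length = l'.length := by
    by_contra hne
    rcases lt_or_gt_of_ne hne with hlt | hlt
    · have h1 := hval l.length (by omega)
      have h2 := (hle l hl l.length).2.2 le_rfl
      have h3 := (hle l' hl' l.length).2.1 hlt
      omega
    · have h1 := hval l'.length (by omega)
      have h2 := (hle l' hl' l'.length).2.2 le_rfl
      have h3 := (hle l hl l'.length).2.1 hlt
      omega
  apply List.ext_getElem hlen
  intro i h1 h2
  have h3 := hval i (by omega)
  rwa [List.getD_eq_getElem _ _ h1, List.getD_eq_getElem _ _ h2] at h3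

/-- the code type -/
abbrev CT (n r : ℕ) := Fin n × (Fin r → Fin (n + 1)) × (Fin r → Fin (n + 1))

theorem card_CT (n r : ℕ) : Fintype.card (CT n r) = n * ((n + 1) ^ r * (n + 1) ^ r) := by
  rw [Fintype.card_prod, Fintype.card_prod, Fintype.card_fun, Fintype.card_fin, Fintype.card_fin,
    Fintype.card_fin]

/-- a breadth first search tree -/
noncomputable def tr (G : SimpleGraph (Fin n)) (r : ℕ) (v : Fin n) : Tr G r v :=
  Classical.choice (exists_tr G r v)

open scoped Classical in
/-- the code of a graph -/
noncomputable def code (r : ℕ) (G : SimpleGraph (Fin n)) : Finset (CT n r) :=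
  univ.filter (fun c => ∃ a b, (tr G r c.1).NT a b ∧
    c.2 = (enc n r ((tr G r c.1).addr a), enc n r ((tr G r c.1).addr b)))

namespace Tr

variable {G : SimpleGraph (Fin n)} {r : ℕ} {v : Fin n} (T : Tr G r v)

theorem addr_lt {w : Fin n} (hw : w ∈ nbhd G r v) : ∀ x ∈ T.addr w, x < n := by
  intro x hx
  induction hk : G.dist v w generalizing w with
  | zero =>
    have h1 : v = w := (mem_nbhd_iff.1 hw).1.dist_eq_zero_iff.1 hk
    rw [← h1, T.addr_root] at hx
    exact absurd hx (by simp)
  | succ k ih =>
    have hne : w ≠ v := by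
      rintro rfl
      simp at hk
    rw [T.addr_cons hw hne, List.mem_cons] at hx
    rcases hx with rfl | hx
    · have h4 : T.idx w < (T.ch (T.par w)).ncard :=
        (T.idx_bij (T.par w)).mapsTo ⟨hw, hne, rfl⟩
      have h5 : (T.ch (T.par w)).ncard ≤ n := by
        have := Set.ncard_le_card (T.ch (T.par w))
        rwa [Nat.card_eq_fintype_card, Fintype.card_fin] at this
      omega
    · have := T.par_dist w hw hne
      exact ih (T.par_mem w hw hne) hx (by omega)

theorem addr_len {w : Fin n} (hw : w ∈ nbhd G r v) : (T.addr w).length ≤ r := by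
  rw [T.addr_length]
  exact (mem_nbhd_iff.1 hw).2

end Tr

theorem X_eq_of_code {r : ℕ} {G H : SimpleGraph (Fin n)} (h : code r G = code r H) (v : Fin n) :
    (tr G r v).X = (tr H r v).X := by
  classical
  have key : ∀ G H : SimpleGraph (Fin n), code r G = code r H →
      (tr G r v).X ⊆ (tr H r v).X := by
    intro G H h
    rintro p ⟨a, b, hab, rfl⟩
    have h1 : ((v, enc n r ((tr G r v).addr a), enc n r ((tr G r v).addr b)) : CT n r) ∈ code r G := by
      unfold code
      rw [mem_filter]
      exact ⟨mem_univ _, a, b, hab, rfl⟩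
    rw [h] at h1
    unfold code at h1
    rw [mem_filter] at h1
    obtain ⟨_, a', b', hab', he⟩ := h1
    simp only [Prod.mk.injEq] at he
    have e1 := enc_inj ((tr G r v).addr_len hab.1) ((tr H r v).addr_len hab'.1)
      ((tr G r v).addr_lt hab.1) ((tr H r v).addr_lt hab'.1) he.1
    have e2 := enc_inj ((tr G r v).addr_len hab.2.1) ((tr H r v).addr_len hab'.2.1)
      ((tr G r v).addr_lt hab.2.1) ((tr H r v).addr_lt hab'.2.1) he.2
    exact ⟨a', b', hab', by rw [e1, e2]⟩
  exact Set.Subset.antisymm (key G H h) (key H G h.symm)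

theorem code_card_le (r : ℕ) (G : SimpleGraph (Fin n)) : (code r G).card ≤ (Bad r G).card := by
  classical
  have hc : ∀ c ∈ code r G, ∃ f ∈ Bad r G, c =
      (f (Sum.inl (Fin.last r)), enc n r ((tr G r (f (Sum.inl (Fin.last r)))).addr (f (Sum.inl 0))),
        enc n r ((tr G r (f (Sum.inl (Fin.last r)))).addr (f (Sum.inr 0)))) := by
    rintro ⟨v, c⟩ hc
    unfold code at hc
    rw [mem_filter] at hc
    obtain ⟨_, a, b, hab, he⟩ := hc
    simp only at hab he
    refine ⟨(tr G r v).tup a b, (tr G r v).tup_mem hab, ?_⟩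
    have h1 : (tr G r v).tup a b (Sum.inl (Fin.last r)) = v := by
      simp only [Tr.tup, Sum.elim_inl, Fin.val_last]
      exact (tr G r v).iter_last hab.1
    have h2 : (tr G r v).tup a b (Sum.inl 0) = a := by simp [Tr.tup]
    have h3 : (tr G r v).tup a b (Sum.inr 0) = b := by simp [Tr.tup]
    rw [h1, h2, h3, he]
  have hsub : code r G ⊆ (Bad r G).image (fun f =>
      ((f (Sum.inl (Fin.last r)), enc n r ((tr G r (f (Sum.inl (Fin.last r)))).addr (f (Sum.inl 0))),
        enc n r ((tr G r (f (Sum.inl (Fin.last r)))).addr (f (Sum.inr 0)))) : CT n r)) := by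
    intro c h
    obtain ⟨f, hf, he⟩ := hc c h
    rw [mem_image]
    exact ⟨f, hf, he.symm⟩
  exact (card_le_card hsub).trans card_image_le

open scoped Classical in
/-- the reconstructable regular graphs with few bad tuples -/
noncomputable def Good (n d r s : ℕ) : Finset (SimpleGraph (Fin n)) :=
  (RG n d).filter (fun G => Reconstructable r G ∧ (Bad r G).card ≤ s)

theorem good_card_le (n d r s : ℕ) :
    (Good n d r s).card ≤ n.factorial * (n * ((n + 1) ^ r * (n + 1) ^ r) + 1) ^ s := by
  classical
  have h1 : (Good n d r s).card ≤ n.factorial * ((Good n d r s).image (code r)).card := by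
    apply card_le_mul_card_image
    intro c hc
    rw [mem_image] at hc
    obtain ⟨G₀, hG₀, rfl⟩ := hc
    unfold Good RG at hG₀
    rw [mem_filter, mem_filter] at hG₀
    have hsub : ((Good n d r s).filter (fun G => code r G = code r G₀)) ⊆
        (univ : Finset (Equiv.Perm (Fin n))).image (fun σ : Equiv.Perm (Fin n) => G₀.comap (fun x => σ x)) := by
      intro G hG
      unfold Good RG at hG
      rw [mem_filter, mem_filter, mem_filter] at hG
      obtain ⟨⟨⟨_, hreg⟩, _, _⟩, hcode⟩ := hG
      obtain ⟨φ⟩ := hG₀.2.1 (Fin n) G ⟨Equiv.refl _, fun v => by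
        exact (tr G₀ r v).iso_of_X hG₀.1.2 hreg (tr G r v) (X_eq_of_code hcode.symm v)⟩
      rw [mem_image]
      refine ⟨φ.symm.toEquiv, mem_univ _, ?_⟩
      ext a b
      rw [SimpleGraph.comap_adj]
      exact φ.symm.map_adj_iff
    refine (card_le_card hsub).trans (card_image_le.trans ?_)
    rw [card_univ, Fintype.card_perm, Fintype.card_fin]
  refine h1.trans (Nat.mul_le_mul_left _ ?_)
  have h2 : ((Good n d r s).image (code r)) ⊆
      (univ : Finset (Finset (CT n r))).filter (fun S => S.card ≤ s) := by
    intro c hc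
    rw [mem_image] at hc
    obtain ⟨G, hG, rfl⟩ := hc
    unfold Good at hG
    rw [mem_filter] at hG ⊢
    exact ⟨mem_univ _, (code_card_le r G).trans hG.2.2⟩
  refine (card_le_card h2).trans ?_
  have h3 := card_small_subsets (CT n r) s
  rw [card_CT] at h3
  exact h3

end Pool.Agent.H336R3.Shot
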