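import Mathlib

set_option autoImplicit false

/-! The Heisenberg group as a Lie group. -/

namespace Pool.Agent.H336R3.ZM

open Topology Manifold

/-- The Heisenberg group: triples of reals with
`(x, y, z) (x', y', z') = (x + x', y + y', z + z' + x y')`. -/
def Heis : Type := ℝ × ℝ × ℝ

namespace Heis

instance : TopologicalSpace Heis := inferInstanceAs (TopologicalSpace (ℝ × ℝ × ℝ))
instance : T2Space Heis := inferInstanceAs (T2Space (ℝ × ℝ × ℝ))
instance : SecondCountableTopology Heis := inferInstanceAs (SecondCountableTopology (ℝ × ℝ × ℝ))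
instance : ChartedSpace (ℝ × ℝ × ℝ) Heis :=
  inferInstanceAs (ChartedSpace (ℝ × ℝ × ℝ) (ℝ × ℝ × ℝ))

/-- the first coordinate -/
def x (p : Heis) : ℝ := Prod.fst p
/-- the second coordinate -/
def y (p : Heis) : ℝ := Prod.fst (Prod.snd p)
/-- the third coordinate -/
def z (p : Heis) : ℝ := Prod.snd (Prod.snd p)
/-- the element with given coordinates -/
def mk (a b c : ℝ) : Heis := (a, b, c)

@[ext] theorem ext {p q : Heis} (h1 : p.x = q.x) (h2 : p.y = q.y) (h3 : p.z = q.z) : p = q :=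
  Prod.ext h1 (Prod.ext h2 h3)

@[simp] theorem mk_x (a b c : ℝ) : (mk a b c).x = a := rfl
@[simp] theorem mk_y (a b c : ℝ) : (mk a b c).y = b := rfl
@[simp] theorem mk_z (a b c : ℝ) : (mk a b c).z = c := rfl

instance : Group Heis where
  mul p q := mk (p.x + q.x) (p.y + q.y) (p.z + q.z + p.x * q.y)
  one := mk 0 0 0
  inv p := mk (-p.x) (-p.y) (-p.z + p.x * p.y)
  mul_assoc p q r := by
    apply ext
    · change p.x + q.x + r.x = p.x + (q.x + r.x); ring
    · change p.y + q.y + r.y = p.y + (q.y + r.y); ring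
    · change (p.z + q.z + p.x * q.y) + r.z + (p.x + q.x) * r.y =
        p.z + (q.z + r.z + q.x * r.y) + p.x * (q.y + r.y)
      ring
  one_mul p := by
    apply ext
    · change 0 + p.x = p.x; ring
    · change 0 + p.y = p.y; ring
    · change 0 + p.z + 0 * p.y = p.z; ring
  mul_one p := by
    apply ext
    · change p.x + 0 = p.x; ring
    · change p.y + 0 = p.y; ring
    · change p.z + 0 + p.x * 0 = p.z; ring
  inv_mul_cancel p := by
    apply ext
    · change -p.x + p.x = 0; ring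
    · change -p.y + p.y = 0; ring
    · change (-p.z + p.x * p.y) + p.z + (-p.x) * p.y = 0; ring

@[simp] theorem mul_x (p q : Heis) : (p * q).x = p.x + q.x := rfl
@[simp] theorem mul_y (p q : Heis) : (p * q).y = p.y + q.y := rfl
@[simp] theorem mul_z (p q : Heis) : (p * q).z = p.z + q.z + p.x * q.y := rfl
@[simp] theorem one_x : (1 : Heis).x = 0 := rfl
@[simp] theorem one_y : (1 : Heis).y = 0 := rfl
@[simp] theorem one_z : (1 : Heis).z = 0 := rfl
@[simp] theorem inv_x (p : Heis) : (p⁻¹).x = -p.x := rfl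
@[simp] theorem inv_y (p : Heis) : (p⁻¹).y = -p.y := rfl
@[simp] theorem inv_z (p : Heis) : (p⁻¹).z = -p.z + p.x * p.y := rfl

theorem continuous_x : Continuous Heis.x := (continuous_fst : Continuous (Prod.fst : ℝ × ℝ × ℝ → ℝ))
theorem continuous_y : Continuous Heis.y :=
  (continuous_fst.comp continuous_snd : Continuous (fun p : ℝ × ℝ × ℝ => p.2.1))
theorem continuous_z : Continuous Heis.z :=
  (continuous_snd.comp continuous_snd : Continuous (fun p : ℝ × ℝ × ℝ => p.2.2))
theorem continuous_mk : Continuous (fun p : ℝ × ℝ × ℝ => mk p.1 p.2.1 p.2.2) :=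
  (continuous_id : Continuous (fun p : ℝ × ℝ × ℝ => p))

instance : LieGroup (modelWithCornersSelf ℝ (ℝ × ℝ × ℝ)) ⊤ Heis where
  toIsManifold := inferInstanceAs
    (IsManifold (modelWithCornersSelf ℝ (ℝ × ℝ × ℝ)) ⊤ (ℝ × ℝ × ℝ))
  contMDiff_mul := by
    rw [← modelWithCornersSelf_prod]
    have h : ContDiff ℝ ⊤ (fun p : (ℝ × ℝ × ℝ) × (ℝ × ℝ × ℝ) =>
        ((p.1.1 + p.2.1, p.1.2.1 + p.2.2.1, p.1.2.2 + p.2.2.2 + p.1.1 * p.2.2.1) : ℝ × ℝ × ℝ)) := by
      fun_prop
    have h2 := h.contMDiff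
    rw [← chartedSpaceSelf_prod] at h2
    exact h2
  contMDiff_inv := by
    have h : ContDiff ℝ ⊤ (fun p : (ℝ × ℝ × ℝ) =>
        ((-p.1, -p.2.1, -p.2.2 + p.1 * p.2.1) : ℝ × ℝ × ℝ)) := by
      fun_prop
    exact h.contMDiff

end Heis

end Pool.Agent.H336R3.ZM
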