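import Pool.Agent.H336R3.Count

set_option autoImplicit false

/-! Sparse random regular graphs are not reconstructable from their neighbourhoods. -/

namespace Pool.Agent.H336R3.Shot

open Finset Filter Topology

theorem regProb_eq (n d : ℕ) (P : SimpleGraph (Fin n) → Prop) [DecidablePred P] :
    regProb n d P = (((RG n d).filter P).card : ℝ) / ((RG n d).card : ℝ) := by
  classical
  unfold regProb
  congr 2
  · rw [← Set.ncard_coe_finset]
    congr 1
    ext G
    simp [RG]
  · rw [← Set.ncard_coe_finset]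
    congr 1
    ext G
    simp [RG]

/-- the number of graphs with many bad tuples -/
theorem many_bad {n d r : ℕ} (s : ℕ) (hd : 1 ≤ d) (h2 : 8 * (d + 1) ≤ n)
    (h3 : 8 * (2 * r + 1) ≤ n * d) :
    (((RG n d).filter (fun G => ¬ (Bad r G).card ≤ s)).card : ℝ) * (s + 1) ≤
      Cst r * d ^ (2 * r + 1) * (RG n d).card := by
  classical
  refine le_trans ?_ (sum_bad_le hd h2 h3)
  rw [← nsmul_eq_mul, ← sum_const]
  refine le_trans ?_ (sum_le_sum_of_subset_of_nonneg (filter_subset (fun G => ¬ (Bad r G).card ≤ s) _)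
    (fun _ _ _ => by positivity))
  apply sum_le_sum
  intro G hG
  rw [mem_filter] at hG
  have : s + 1 ≤ (Bad r G).card := by omega
  exact_mod_cast this

/-- the number of good graphs is small -/
theorem good_small {n d r s : ℕ} (hr : 1 ≤ r) (hd : 256 ≤ d) (hdn : d ^ (2 * r) ≤ n)
    (he : Even (n * d)) (hs : 64 * (2 * r + 1) * s ≤ n * d) :
    ((Good n d r s).card : ℝ) * (n + 1) ≤ (RG n d).card := by
  have hd2 : d ^ 2 ≤ n := le_trans (Nat.pow_le_pow_right (by omega) (by omega)) hdn
  have h256 : 256 * d ≤ n := by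
    calc 256 * d ≤ d * d := Nat.mul_le_mul_right _ hd
      _ = d ^ 2 := by ring
      _ ≤ n := hd2
  have hn : 65536 ≤ n := by omega
  have h2 : 8 * (d + 1) ≤ n := by omega
  set k := n * d / 8 with hk
  have hlow := RG_lower h2 he
  rw [← hk] at hlow
  -- `(n+1) (2d)^4 ≤ n^4`
  have hA : (n + 1) * (2 * d) ^ 4 ≤ n ^ 4 := by
    have h4 : (2 * d) ^ 4 = 16 * (d ^ 2) ^ 2 := by ring
    rw [h4]
    calc (n + 1) * (16 * (d ^ 2) ^ 2) ≤ (n + 1) * (16 * n ^ 2) := by gcongr
      _ = (16 * (n + 1)) * n ^ 2 := by ring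
      _ ≤ (n * n) * n ^ 2 := by
          apply Nat.mul_le_mul_right
          calc 16 * (n + 1) ≤ 32 * n := by omega
            _ ≤ n * n := Nat.mul_le_mul_right _ (by omega)
      _ = n ^ 4 := by ring
  have hpos : 0 < (2 * d) ^ (4 * k) := by positivity
  have hB : (n + 1) ^ k ≤ (RG n d).card ^ 4 := by
    have h5 : (n + 1) ^ k * (2 * d) ^ (4 * k) ≤ (RG n d).card ^ 4 * (2 * d) ^ (4 * k) := by
      calc (n + 1) ^ k * (2 * d) ^ (4 * k) = ((n + 1) * (2 * d) ^ 4) ^ k := by
            rw [mul_pow (n + 1), pow_mul (2 * d)]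
        _ ≤ (n ^ 4) ^ k := Nat.pow_le_pow_left hA k
        _ = (n ^ k) ^ 4 := by rw [← pow_mul, ← pow_mul, mul_comm]
        _ ≤ ((2 * d) ^ k * (RG n d).card) ^ 4 := Nat.pow_le_pow_left hlow 4
        _ = (RG n d).card ^ 4 * (2 * d) ^ (4 * k) := by
            rw [mul_pow, ← pow_mul, mul_comm k 4]; ring
    exact Nat.le_of_mul_le_mul_right h5 hpos
  have hC : (Good n d r s).card ≤ (n + 1) ^ (n + (2 * r + 1) * s) := by
    refine (good_card_le n d r s).trans ?_
    rw [pow_add, pow_mul]
    apply Nat.mul_le_mul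
    · exact (Nat.factorial_le_pow n).trans (Nat.pow_le_pow_left (by omega) n)
    · apply Nat.pow_le_pow_left
      have h6 : 1 ≤ (n + 1) ^ r * (n + 1) ^ r := Nat.one_le_iff_ne_zero.2 (by positivity)
      calc n * ((n + 1) ^ r * (n + 1) ^ r) + 1 ≤ n * ((n + 1) ^ r * (n + 1) ^ r) + ((n + 1) ^ r * (n + 1) ^ r) := by
            omega
        _ = (n + 1) ^ (2 * r + 1) := by
            rw [show 2 * r + 1 = r + r + 1 by ring, pow_succ, pow_add]; ring
  have hexp : 4 * (n + (2 * r + 1) * s + 1) ≤ k := by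
    have h7 : 64 * ((2 * r + 1) * s) ≤ n * d := by
      calc 64 * ((2 * r + 1) * s) = 64 * (2 * r + 1) * s := by ring
        _ ≤ n * d := hs
    have h8 : 256 * n ≤ n * d := by
      calc 256 * n = n * 256 := by ring
        _ ≤ n * d := Nat.mul_le_mul_left _ hd
    omega
  have hD : ((Good n d r s).card * (n + 1)) ^ 4 ≤ (RG n d).card ^ 4 := by
    calc ((Good n d r s).card * (n + 1)) ^ 4 ≤ ((n + 1) ^ (n + (2 * r + 1) * s) * (n + 1)) ^ 4 :=
          Nat.pow_le_pow_left (Nat.mul_le_mul_right _ hC) 4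
      _ = (n + 1) ^ (4 * (n + (2 * r + 1) * s + 1)) := by
          rw [← pow_succ, ← pow_mul, mul_comm 4]
      _ ≤ (n + 1) ^ k := Nat.pow_le_pow_right (by omega) hexp
      _ ≤ (RG n d).card ^ 4 := hB
  have hE : (Good n d r s).card * (n + 1) ≤ (RG n d).card :=
    (Nat.pow_le_pow_iff_left (by norm_num)).1 hD
  exact_mod_cast hE

/-- the uniform bound for the probability of being reconstructable -/
theorem rec_prob_le {n d r : ℕ} (hr : 1 ≤ r) (hd : 256 ≤ d) (hdn : d ^ (2 * r) ≤ n)
    (he : Even (n * d)) :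
    regProb n d (fun G => Reconstructable r G) ≤
      64 * (2 * r + 1) * Cst r * ((d : ℝ) ^ (2 * r) / n) + 1 / (n + 1) := by
  classical
  have hd2 : d ^ 2 ≤ n := le_trans (Nat.pow_le_pow_right (by omega) (by omega)) hdn
  have h256 : 256 * d ≤ n := by
    calc 256 * d ≤ d * d := Nat.mul_le_mul_right _ hd
      _ = d ^ 2 := by ring
      _ ≤ n := hd2
  have h2 : 8 * (d + 1) ≤ n := by omega
  have h3 : 8 * (2 * r + 1) ≤ n * d := by
    have h4 : 2 * r + 1 ≤ d ^ (2 * r) := by
      have h5 : 2 * r < 2 ^ (2 * r) := Nat.lt_two_pow_self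
      have h6 : 2 ^ (2 * r) ≤ d ^ (2 * r) := Nat.pow_le_pow_left (by omega) _
      omega
    calc 8 * (2 * r + 1) ≤ 8 * n := Nat.mul_le_mul_left _ (h4.trans hdn)
      _ ≤ d * n := Nat.mul_le_mul_right _ (by omega)
      _ = n * d := by ring
  have hNpos : 0 < (RG n d).card := RG_nonempty (by omega) he
  have hN : (0 : ℝ) < (RG n d).card := by exact_mod_cast hNpos
  set s := n * d / (64 * (2 * r + 1)) with hs
  have hs1 : 64 * (2 * r + 1) * s ≤ n * d := Nat.mul_div_le _ _
  have hs2 : n * d < 64 * (2 * r + 1) * (s + 1) := by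
    rw [hs]
    exact Nat.lt_mul_div_succ _ (by positivity)
  have hgood := good_small hr hd hdn he hs1
  have hbad := many_bad (n := n) (d := d) (r := r) s (by omega) h2 h3
  rw [regProb_eq]
  have hsplit : (((RG n d).filter (fun G => Reconstructable r G)).card : ℝ) ≤
      ((RG n d).filter (fun G => ¬ (Bad r G).card ≤ s)).card + (Good n d r s).card := by
    have : ((RG n d).filter (fun G => Reconstructable r G)) ⊆
        (RG n d).filter (fun G => ¬ (Bad r G).card ≤ s) ∪ Good n d r s := by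
      intro G hG
      unfold Good
      rw [mem_filter] at hG
      rw [mem_union, mem_filter, mem_filter]
      by_cases h : (Bad r G).card ≤ s
      · exact Or.inr ⟨hG.1, hG.2, h⟩
      · exact Or.inl ⟨hG.1, h⟩
    exact_mod_cast (card_le_card this).trans (card_union_le _ _)
  have hn0 : (0 : ℝ) < n := by
    have : 0 < n := by omega
    exact_mod_cast this
  have hd0 : (0 : ℝ) < d := by
    have : 0 < d := by omega
    exact_mod_cast this
  refine (div_le_div_of_nonneg_right hsplit hN.le).trans ?_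
  rw [add_div]
  apply add_le_add
  · rw [div_le_iff₀ hN]
    have hs3 : (n : ℝ) * d ≤ 64 * (2 * r + 1) * (s + 1) := by exact_mod_cast hs2.le
    have hs0 : (0 : ℝ) < s + 1 := by positivity
    set B := (((RG n d).filter (fun G => ¬ (Bad r G).card ≤ s)).card : ℝ) with hB
    have hB0 : 0 ≤ B := by positivity
    have h9 : B * (n * d) ≤ 64 * (2 * r + 1) * (Cst r * d ^ (2 * r + 1) * (RG n d).card) := by
      calc B * (n * d) ≤ B * (64 * (2 * r + 1) * (s + 1)) := mul_le_mul_of_nonneg_left hs3 hB0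
        _ = 64 * (2 * r + 1) * (B * (s + 1)) := by ring
        _ ≤ _ := mul_le_mul_of_nonneg_left hbad (by positivity)
    have h10 : B * n ≤ 64 * (2 * r + 1) * (Cst r * d ^ (2 * r) * (RG n d).card) := by
      have h11 : (B * n) * d ≤ (64 * (2 * r + 1) * (Cst r * d ^ (2 * r) * (RG n d).card)) * d := by
        calc (B * n) * d = B * (n * d) := by ring
          _ ≤ _ := h9
          _ = _ := by rw [pow_succ]; ring
      exact le_of_mul_le_mul_right h11 hd0
    calc B = (B * n) / n := by field_simp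
      _ ≤ (64 * (2 * r + 1) * (Cst r * d ^ (2 * r) * (RG n d).card)) / n :=
          div_le_div_of_nonneg_right h10 hn0.le
      _ = _ := by ring
  · rw [div_le_div_iff₀ hN (by positivity)]
    linarith

/-- the probabilities of an event and its complement -/
theorem regProb_not {n d : ℕ} (h : 0 < (RG n d).card) (P : SimpleGraph (Fin n) → Prop) :
    regProb n d (fun G => ¬ P G) = 1 - regProb n d P := by
  classical
  rw [regProb_eq, regProb_eq]
  have h1 := card_filter_add_card_filter_not (s := RG n d) P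
  have h2 : (((RG n d).filter P).card : ℝ) + (((RG n d).filter (fun G => ¬ P G)).card : ℝ) =
      (RG n d).card := by exact_mod_cast h1
  have h3 : (0 : ℝ) < (RG n d).card := by exact_mod_cast h
  field_simp
  linarith

theorem regProb_nonneg (n d : ℕ) (P : SimpleGraph (Fin n) → Prop) : 0 ≤ regProb n d P := by
  unfold regProb
  positivity

/-- the limit along sequences -/
theorem not_rec_tendsto {r : ℕ} (hr : 1 ≤ r) {ι : Type} {L : Filter ι} (N D : ι → ℕ)
    (hN : Tendsto N L atTop) (hev : ∀ᶠ i in L, Even (N i * D i)) (hD : ∀ᶠ i in L, 256 ≤ D i)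
    (hlim : Tendsto (fun i => ((D i : ℝ) ^ (2 * r) / (N i : ℝ))) L (𝓝 0)) :
    Tendsto (fun i => regProb (N i) (D i) (fun G => ¬ Reconstructable r G)) L (𝓝 1) := by
  have h1 : Tendsto (fun i => 64 * (2 * (r : ℝ) + 1) * Cst r * ((D i : ℝ) ^ (2 * r) / (N i : ℝ)) +
      1 / ((N i : ℝ) + 1)) L (𝓝 0) := by
    have h2 : Tendsto (fun i => 1 / ((N i : ℝ) + 1)) L (𝓝 0) :=
      tendsto_one_div_add_atTop_nhds_zero_nat.comp hN
    simpa using (hlim.const_mul (64 * (2 * (r : ℝ) + 1) * Cst r)).add h2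
  have hle : ∀ᶠ i in L, (D i) ^ (2 * r) ≤ N i := by
    have h3 := hlim.eventually (gt_mem_nhds (show (0 : ℝ) < 1 by norm_num))
    filter_upwards [h3, hN.eventually (eventually_gt_atTop 0)] with i hi hpos
    have hpos' : (0 : ℝ) < N i := by exact_mod_cast hpos
    rw [div_lt_one hpos'] at hi
    exact_mod_cast hi.le
  have hrec : Tendsto (fun i => regProb (N i) (D i) (fun G => Reconstructable r G)) L (𝓝 0) := by
    apply squeeze_zero' _ _ h1
    · exact Eventually.of_forall fun i => regProb_nonneg _ _ _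
    · filter_upwards [hev, hD, hle] with i h3 h4 h5
      exact rec_prob_le hr h4 h5 h3
  have h4 : Tendsto (fun i => 1 - regProb (N i) (D i) (fun G => Reconstructable r G)) L (𝓝 (1 - 0)) :=
    tendsto_const_nhds.sub hrec
  rw [sub_zero] at h4
  refine h4.congr' ?_
  filter_upwards [hev, hD, hle] with i h3 h5 h6
  refine (regProb_not ?_ _).symm
  apply RG_nonempty _ h3
  have hd2 : (D i) ^ 2 ≤ N i := le_trans (Nat.pow_le_pow_right (by omega) (by omega)) h6
  have : 256 * D i ≤ N i := by
    calc 256 * D i ≤ D i * D i := Nat.mul_le_mul_right _ h5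
      _ = (D i) ^ 2 := by ring
      _ ≤ N i := hd2
  omega

/-- the limit for degrees between `n ^ ε` and `n ^ (1 / (2 r) - ε)` -/
theorem not_rec_range {r : ℕ} (hr : 1 ≤ r) {ε : ℝ} (hε : 0 < ε) {ι : Type} {L : Filter ι}
    (N D : ι → ℕ) (hN : Tendsto N L atTop) (hev : ∀ᶠ i in L, Even (N i * D i))
    (hlo : ∀ᶠ i in L, (N i : ℝ) ^ ε ≤ D i)
    (hhi : ∀ᶠ i in L, (D i : ℝ) ≤ (N i : ℝ) ^ (1 / (2 * r : ℝ) - ε)) :
    Tendsto (fun i => regProb (N i) (D i) (fun G => ¬ Reconstructable r G)) L (𝓝 1) := by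
  have hNr : Tendsto (fun i => (N i : ℝ)) L atTop := tendsto_natCast_atTop_atTop.comp hN
  have hr0 : (0 : ℝ) < 2 * r := by
    have : (1 : ℝ) ≤ r := by exact_mod_cast hr
    linarith
  apply not_rec_tendsto hr N D hN hev
  · have h1 : Tendsto (fun i => (N i : ℝ) ^ ε) L atTop := (tendsto_rpow_atTop hε).comp hNr
    filter_upwards [hlo, h1.eventually_ge_atTop 256] with i h2 h3
    exact_mod_cast h3.trans h2
  · have h1 : Tendsto (fun i => (N i : ℝ) ^ (-(2 * r * ε))) L (𝓝 0) :=
      (tendsto_rpow_neg_atTop (by positivity)).comp hNr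
    apply squeeze_zero' _ _ h1
    · exact Eventually.of_forall fun i => by positivity
    · filter_upwards [hhi, hNr.eventually_gt_atTop 0] with i h2 h3
      rw [div_le_iff₀ h3]
      calc (D i : ℝ) ^ (2 * r) ≤ ((N i : ℝ) ^ (1 / (2 * r : ℝ) - ε)) ^ (2 * r) :=
            pow_le_pow_left₀ (by positivity) h2 _
        _ = (N i : ℝ) ^ ((1 / (2 * r : ℝ) - ε) * (2 * r : ℕ)) := by
            rw [← Real.rpow_natCast, ← Real.rpow_mul h3.le]
        _ = (N i : ℝ) ^ (-(2 * r * ε) + 1) := by
            congr 1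
            push_cast
            field_simp
            ring
        _ = (N i : ℝ) ^ (-(2 * r * ε)) * N i := by
            rw [Real.rpow_add h3, Real.rpow_one]

end Pool.Agent.H336R3.Shot
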