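import Mathlib

set_option autoImplicit false

/-! Definitions: regular graphs, neighbourhoods, reconstructability, uniform random regular graphs. -/

namespace Pool.Agent.H336R3.Shot

/-- `G` is `d`-regular: every vertex has exactly `d` neighbours. -/
def Reg {V : Type} (G : SimpleGraph V) (d : ℕ) : Prop := ∀ v, (G.neighborSet v).ncard = d

/-- The set of vertices of `G` at graph distance at most `r` from `v`. -/
def nbhd {V : Type} (G : SimpleGraph V) (r : ℕ) (v : V) : Set V := {w | G.edist v w ≤ r}

theorem mem_nbhd_self {V : Type} (G : SimpleGraph V) (r : ℕ) (v : V) : v ∈ nbhd G r v := by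
  simp [nbhd]

/-- The `r`-neighbourhoods `N_r^G(v)` and `N_r^H(w)` (the induced subgraphs on the vertices at
distance at most `r`, with the roots `v` and `w`) are isomorphic as rooted graphs. -/
def NbhdIso {V W : Type} (r : ℕ) (G : SimpleGraph V) (v : V) (H : SimpleGraph W) (w : W) : Prop :=
  ∃ φ : G.induce (nbhd G r v) ≃g H.induce (nbhd H r w),
    φ ⟨v, mem_nbhd_self G r v⟩ = ⟨w, mem_nbhd_self H r w⟩

/-- `G` is reconstructable from its `r`-neighbourhoods: every graph `H` that has the same collection
of rooted `r`-neighbourhoods (up to isomorphism) is isomorphic to `G`. -/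
def Reconstructable {V : Type} (r : ℕ) (G : SimpleGraph V) : Prop :=
  ∀ (W : Type) (H : SimpleGraph W),
    (∃ φ : V ≃ W, ∀ v : V, NbhdIso r G v H (φ v)) → Nonempty (G ≃g H)

/-- The probability that a uniformly random `d`-regular graph on `n` vertices has the property `P`. -/
noncomputable def regProb (n d : ℕ) (P : SimpleGraph (Fin n) → Prop) : ℝ :=
  ({G : SimpleGraph (Fin n) | Reg G d ∧ P G}.ncard : ℝ) / ({G : SimpleGraph (Fin n) | Reg G d}.ncard : ℝ)

end Pool.Agent.H336R3.Shot
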