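import Pool.Agent.H336R3.ShotDefs

set_option autoImplicit false

/-! A switching bound for the number of `d`-regular graphs which contain a given set of edges. -/

namespace Pool.Agent.H336R3.Shot

open Finset

variable {n : ℕ}

/-- the 4-cycle `u v y x` -/
def C4 (u v x y : Fin n) : SimpleGraph (Fin n) :=
  SimpleGraph.fromEdgeSet {s(u,v), s(v,y), s(y,x), s(x,u)}

theorem C4_adj (u v x y a b : Fin n) : (C4 u v x y).Adj a b ↔
    (s(a,b) = s(u,v) ∨ s(a,b) = s(v,y) ∨ s(a,b) = s(y,x) ∨ s(a,b) = s(x,u)) ∧ a ≠ b := by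
  unfold C4
  rw [SimpleGraph.fromEdgeSet_adj]
  simp only [Set.mem_insert_iff, Set.mem_singleton_iff]

theorem symm_adj (G H : SimpleGraph (Fin n)) (a b : Fin n) :
    (symmDiff G H).Adj a b ↔ (G.Adj a b ∧ ¬ H.Adj a b) ∨ (H.Adj a b ∧ ¬ G.Adj a b) := by
  rw [symmDiff_def, SimpleGraph.sup_adj, SimpleGraph.sdiff_adj, SimpleGraph.sdiff_adj]

/-- exchanging one neighbour preserves the degree -/
theorem deg_exchange {G G' : SimpleGraph (Fin n)} {w a b : Fin n} {d : ℕ}
    (hG : (G.neighborSet w).ncard = d) (ha : ¬ G.Adj w a) (hb : G.Adj w b)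
    (h : ∀ z, G'.Adj w z ↔ z = a ∨ (G.Adj w z ∧ z ≠ b)) : (G'.neighborSet w).ncard = d := by
  have e : G'.neighborSet w = insert a (G.neighborSet w \ {b}) := by
    ext z
    rw [SimpleGraph.mem_neighborSet, h z, Set.mem_insert_iff, Set.mem_sdiff, Set.mem_singleton_iff,
      SimpleGraph.mem_neighborSet]
  rw [e, Set.ncard_exchange (by simpa using ha) (by simpa using hb), hG]

theorem reg_switch {G : SimpleGraph (Fin n)} {d : ℕ} (hG : Reg G d) {u v x y : Fin n}
    (h1 : G.Adj u v) (h2 : G.Adj x y) (h3 : ¬ G.Adj u x) (h4 : ¬ G.Adj v y)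
    (hux : u ≠ x) (hvy : v ≠ y) : Reg (symmDiff G (C4 u v x y)) d := by
  have huv : u ≠ v := h1.ne
  have hxy : x ≠ y := h2.ne
  have huy : u ≠ y := fun h => h4 (h ▸ h1.symm)
  have hvx : v ≠ x := fun h => h3 (h ▸ h1)
  intro w
  by_cases hu : w = u
  · subst hu
    apply deg_exchange (hG w) h3 h1
    intro z
    rw [symm_adj, C4_adj]
    simp only [Sym2.eq_iff]
    constructor
    · rintro (⟨g1, g2⟩ | ⟨⟨g1, g2⟩, g3⟩)
      · right
        refine ⟨g1, ?_⟩
        rintro rfl
        exact g2 ⟨by simp, g1.ne⟩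
      · rcases g1 with h | h | h | h
        · rcases h with ⟨_, h⟩ | ⟨h, _⟩
          · exact absurd (h ▸ h1) g3
          · exact absurd h huv
        · rcases h with ⟨h, _⟩ | ⟨h, _⟩
          · exact absurd h huv
          · exact absurd h huy
        · rcases h with ⟨h, _⟩ | ⟨h, _⟩
          · exact absurd h huy
          · exact absurd h hux
        · rcases h with ⟨h, _⟩ | ⟨_, h⟩
          · exact absurd h hux
          · exact Or.inl h
    · rintro (rfl | ⟨g1, g2⟩)
      · right
        exact ⟨⟨by simp, hux⟩, h3⟩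
      · left
        refine ⟨g1, ?_⟩
        rintro ⟨g3, _⟩
        rcases g3 with h | h | h | h
        · rcases h with ⟨_, h⟩ | ⟨h, _⟩
          · exact g2 h
          · exact huv h
        · rcases h with ⟨h, _⟩ | ⟨h, _⟩
          · exact huv h
          · exact huy h
        · rcases h with ⟨h, _⟩ | ⟨h, _⟩
          · exact huy h
          · exact hux h
        · rcases h with ⟨h, _⟩ | ⟨_, h⟩
          · exact hux h
          · exact h3 (h ▸ g1)
  by_cases hv : w = v
  · subst hv
    apply deg_exchange (hG w) h4 h1.symm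
    intro z
    rw [symm_adj, C4_adj]
    simp only [Sym2.eq_iff]
    constructor
    · rintro (⟨g1, g2⟩ | ⟨⟨g1, g2⟩, g3⟩)
      · right
        refine ⟨g1, ?_⟩
        rintro rfl
        exact g2 ⟨by simp, g1.ne⟩
      · rcases g1 with h | h | h | h
        · rcases h with ⟨h, _⟩ | ⟨_, h⟩
          · exact absurd h hu
          · exact absurd (h ▸ h1.symm) g3
        · rcases h with ⟨_, h⟩ | ⟨h, _⟩
          · exact Or.inl h
          · exact absurd h hvy
        · rcases h with ⟨h, _⟩ | ⟨h, _⟩
          · exact absurd h hvy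
          · exact absurd h hvx
        · rcases h with ⟨h, _⟩ | ⟨h, _⟩
          · exact absurd h hvx
          · exact absurd h hu
    · rintro (rfl | ⟨g1, g2⟩)
      · right
        exact ⟨⟨by simp, hvy⟩, h4⟩
      · left
        refine ⟨g1, ?_⟩
        rintro ⟨g3, _⟩
        rcases g3 with h | h | h | h
        · rcases h with ⟨h, _⟩ | ⟨_, h⟩
          · exact hu h
          · exact g2 h
        · rcases h with ⟨_, h⟩ | ⟨h, _⟩
          · exact h4 (h ▸ g1)
          · exact hvy h
        · rcases h with ⟨h, _⟩ | ⟨h, _⟩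
          · exact hvy h
          · exact hvx h
        · rcases h with ⟨h, _⟩ | ⟨h, _⟩
          · exact hvx h
          · exact hu h
  by_cases hx : w = x
  · subst hx
    apply deg_exchange (hG w) (fun h => h3 h.symm) h2
    intro z
    rw [symm_adj, C4_adj]
    simp only [Sym2.eq_iff]
    constructor
    · rintro (⟨g1, g2⟩ | ⟨⟨g1, g2⟩, g3⟩)
      · right
        refine ⟨g1, ?_⟩
        rintro rfl
        exact g2 ⟨by simp, g1.ne⟩
      · rcases g1 with h | h | h | h
        · rcases h with ⟨h, _⟩ | ⟨h, _⟩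
          · exact absurd h hu
          · exact absurd h hv
        · rcases h with ⟨h, _⟩ | ⟨h, _⟩
          · exact absurd h hv
          · exact absurd h hxy
        · rcases h with ⟨h, _⟩ | ⟨_, h⟩
          · exact absurd h hxy
          · exact absurd (h ▸ h2) g3
        · rcases h with ⟨_, h⟩ | ⟨h, _⟩
          · exact Or.inl h
          · exact absurd h hu
    · rintro (rfl | ⟨g1, g2⟩)
      · right
        exact ⟨⟨by simp, fun h => hu h⟩, fun h => h3 h.symm⟩
      · left
        refine ⟨g1, ?_⟩
        rintro ⟨g3, _⟩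
        rcases g3 with h | h | h | h
        · rcases h with ⟨h, _⟩ | ⟨h, _⟩
          · exact hu h
          · exact hv h
        · rcases h with ⟨h, _⟩ | ⟨h, _⟩
          · exact hv h
          · exact hxy h
        · rcases h with ⟨h, _⟩ | ⟨_, h⟩
          · exact hxy h
          · exact g2 h
        · rcases h with ⟨_, h⟩ | ⟨h, _⟩
          · exact h3 (h ▸ g1).symm
          · exact hu h
  by_cases hy : w = y
  · subst hy
    apply deg_exchange (hG w) (fun h => h4 h.symm) h2.symm
    intro z
    rw [symm_adj, C4_adj]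
    simp only [Sym2.eq_iff]
    constructor
    · rintro (⟨g1, g2⟩ | ⟨⟨g1, g2⟩, g3⟩)
      · right
        refine ⟨g1, ?_⟩
        rintro rfl
        exact g2 ⟨by simp, g1.ne⟩
      · rcases g1 with h | h | h | h
        · rcases h with ⟨h, _⟩ | ⟨h, _⟩
          · exact absurd h hu
          · exact absurd h hv
        · rcases h with ⟨h, _⟩ | ⟨_, h⟩
          · exact absurd h hv
          · exact Or.inl h
        · rcases h with ⟨_, h⟩ | ⟨h, _⟩
          · exact absurd (h ▸ h2.symm) g3
          · exact absurd h hx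
        · rcases h with ⟨h, _⟩ | ⟨h, _⟩
          · exact absurd h hx
          · exact absurd h hu
    · rintro (rfl | ⟨g1, g2⟩)
      · right
        exact ⟨⟨by simp, fun h => hv h⟩, fun h => h4 h.symm⟩
      · left
        refine ⟨g1, ?_⟩
        rintro ⟨g3, _⟩
        rcases g3 with h | h | h | h
        · rcases h with ⟨h, _⟩ | ⟨h, _⟩
          · exact hu h
          · exact hv h
        · rcases h with ⟨h, _⟩ | ⟨_, h⟩
          · exact hv h
          · exact h4 (h ▸ g1).symm
        · rcases h with ⟨_, h⟩ | ⟨h, _⟩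
          · exact g2 h
          · exact hx h
        · rcases h with ⟨h, _⟩ | ⟨h, _⟩
          · exact hx h
          · exact hu h
  · have e : (symmDiff G (C4 u v x y)).neighborSet w = G.neighborSet w := by
      ext z
      rw [SimpleGraph.mem_neighborSet, SimpleGraph.mem_neighborSet, symm_adj, C4_adj]
      simp only [Sym2.eq_iff]
      constructor
      · rintro (⟨g1, g2⟩ | ⟨⟨g1, g2⟩, g3⟩)
        · exact g1
        · exfalso
          rcases g1 with h | h | h | h <;> rcases h with ⟨h, _⟩ | ⟨h, _⟩ <;> tauto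
      · intro g1
        left
        refine ⟨g1, ?_⟩
        rintro ⟨g3, _⟩
        rcases g3 with h | h | h | h <;> rcases h with ⟨h, _⟩ | ⟨h, _⟩ <;> tauto
    rw [e]; exact hG w

end Pool.Agent.H336R3.Shot
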