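import Pool.Agent.H336R3.Switch

set_option autoImplicit false

/-! A switching bound for the number of `d`-regular graphs which contain a given set of edges. -/

namespace Pool.Agent.H336R3.Shot

open Finset

variable {n : ℕ}

open scoped Classical in
/-- the `d`-regular graphs on `n` vertices -/
noncomputable def RG (n d : ℕ) : Finset (SimpleGraph (Fin n)) := univ.filter (fun G => Reg G d)

open scoped Classical in
/-- the `d`-regular graphs on `n` vertices which contain the edges `E` -/
noncomputable def RGE (n d : ℕ) (E : Finset (Sym2 (Fin n))) : Finset (SimpleGraph (Fin n)) :=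
  univ.filter (fun G => Reg G d ∧ ∀ e ∈ E, e ∈ G.edgeSet)

open scoped Classical in
/-- the neighbours, as a finset -/
noncomputable def nb (G : SimpleGraph (Fin n)) (x : Fin n) : Finset (Fin n) :=
  univ.filter (fun y => G.Adj x y)

theorem nb_card {G : SimpleGraph (Fin n)} {d : ℕ} (hG : Reg G d) (x : Fin n) : (nb G x).card = d := by
  rw [← hG x, ← Set.ncard_coe_finset]
  congr 1
  ext y
  simp [nb]

theorem pairs_of_edges (E : Finset (Sym2 (Fin n))) :
    (univ.filter (fun p : Fin n × Fin n => s(p.1, p.2) ∈ E)).card ≤ 2 * E.card := by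
  classical
  have h : (univ.filter (fun p : Fin n × Fin n => s(p.1, p.2) ∈ E)) ⊆
      E.biUnion (fun e => univ.filter (fun p : Fin n × Fin n => s(p.1, p.2) = e)) := by
    intro p hp
    rw [mem_filter] at hp
    rw [mem_biUnion]
    exact ⟨_, hp.2, by simp⟩
  refine (card_le_card h).trans (card_biUnion_le.trans ?_)
  rw [mul_comm, ← smul_eq_mul, ← sum_const]
  apply sum_le_sum
  intro e _
  induction e using Sym2.ind with
  | _ a b =>
    have : (univ.filter (fun p : Fin n × Fin n => s(p.1, p.2) = s(a, b))) ⊆ {(a, b), (b, a)} := by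
      intro p hp
      rw [mem_filter, Sym2.eq_iff] at hp
      rw [mem_insert, mem_singleton]
      rcases hp.2 with h | h
      · left; exact Prod.ext h.1 h.2
      · right; exact Prod.ext h.1 h.2
    exact (card_le_card this).trans (card_le_two)

open scoped Classical in
/-- the admissible switching pairs -/
noncomputable def FP (G : SimpleGraph (Fin n)) (E : Finset (Sym2 (Fin n))) (u v : Fin n) :
    Finset (Fin n × Fin n) :=
  univ.filter (fun p => G.Adj p.1 p.2 ∧ s(p.1, p.2) ∉ E ∧ ¬ G.Adj u p.1 ∧ u ≠ p.1 ∧
    ¬ G.Adj v p.2 ∧ v ≠ p.2)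

theorem sum_nb {G : SimpleGraph (Fin n)} {d : ℕ} (hG : Reg G d) (S : Finset (Fin n)) :
    (S.sigma (fun x => nb G x)).card = S.card * d := by
  rw [card_sigma, sum_congr rfl (fun x _ => nb_card hG x), sum_const, smul_eq_mul]

theorem FP_card {G : SimpleGraph (Fin n)} {d : ℕ} (hG : Reg G d) (E : Finset (Sym2 (Fin n)))
    (u v : Fin n) : n * d ≤ (FP G E u v).card + 2 * E.card + 2 * ((d + 1) * d) := by
  classical
  have hall : (univ.filter (fun p : Fin n × Fin n => G.Adj p.1 p.2)).card = n * d := by
    have h := sum_nb hG univ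
    rw [card_univ, Fintype.card_fin] at h
    rw [← h]
    apply card_bij (fun p _ => (⟨p.1, p.2⟩ : Σ _ : Fin n, Fin n))
    · intro p hp
      rw [mem_filter] at hp
      simp only [mem_sigma, mem_univ, true_and, nb, mem_filter]
      exact hp.2
    · intro p _ q _ h
      simp only [Sigma.mk.injEq, heq_eq_eq] at h
      exact Prod.ext h.1 h.2
    · rintro ⟨a, b⟩ h
      simp only [mem_sigma, mem_univ, true_and, nb, mem_filter] at h
      exact ⟨(a, b), by simpa using h, rfl⟩
  have hball : ∀ w : Fin n, (insert w (nb G w)).card ≤ d + 1 := by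
    intro w
    exact (card_insert_le _ _).trans (by rw [nb_card hG])
  have h1 : (univ.filter (fun p : Fin n × Fin n => G.Adj p.1 p.2 ∧ p.1 ∈ insert u (nb G u))).card
      ≤ (d + 1) * d := by
    refine le_trans ?_ ((sum_nb hG (insert u (nb G u))).le.trans
      (Nat.mul_le_mul_right _ (hball u)))
    apply card_le_card_of_injOn (fun p => (⟨p.1, p.2⟩ : Σ _ : Fin n, Fin n))
    · intro p hp
      rw [mem_coe, mem_filter] at hp
      simp only [coe_sigma, Set.mem_sigma_iff, mem_coe]
      refine ⟨hp.2.2, ?_⟩
      simp only [nb, mem_filter, mem_univ, true_and]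
      exact hp.2.1
    · intro p _ q _ h
      simp only [Sigma.mk.injEq, heq_eq_eq] at h
      exact Prod.ext h.1 h.2
  have h2 : (univ.filter (fun p : Fin n × Fin n => G.Adj p.1 p.2 ∧ p.2 ∈ insert v (nb G v))).card
      ≤ (d + 1) * d := by
    refine le_trans ?_ ((sum_nb hG (insert v (nb G v))).le.trans
      (Nat.mul_le_mul_right _ (hball v)))
    apply card_le_card_of_injOn (fun p => (⟨p.2, p.1⟩ : Σ _ : Fin n, Fin n))
    · intro p hp
      rw [mem_coe, mem_filter] at hp
      simp only [coe_sigma, Set.mem_sigma_iff, mem_coe]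
      refine ⟨hp.2.2, ?_⟩
      simp only [nb, mem_filter, mem_univ, true_and]
      exact hp.2.1.symm
    · intro p _ q _ h
      simp only [Sigma.mk.injEq, heq_eq_eq] at h
      exact Prod.ext h.2 h.1
  have h3 := pairs_of_edges E
  have hsub : (univ.filter (fun p : Fin n × Fin n => G.Adj p.1 p.2)) ⊆
      (FP G E u v ∪ univ.filter (fun p : Fin n × Fin n => s(p.1, p.2) ∈ E)) ∪
      (univ.filter (fun p : Fin n × Fin n => G.Adj p.1 p.2 ∧ p.1 ∈ insert u (nb G u)) ∪
       univ.filter (fun p : Fin n × Fin n => G.Adj p.1 p.2 ∧ p.2 ∈ insert v (nb G v))) := by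
    intro p hp
    rw [mem_filter] at hp
    simp only [mem_union, mem_filter, mem_univ, true_and, FP, mem_insert, nb]
    by_cases g1 : s(p.1, p.2) ∈ E
    · tauto
    by_cases g2 : G.Adj u p.1
    · tauto
    by_cases g3 : u = p.1
    · have := g3.symm; tauto
    by_cases g4 : G.Adj v p.2
    · tauto
    by_cases g5 : v = p.2
    · have := g5.symm; tauto
    tauto
  have h4 := card_le_card hsub
  have h5 := card_union_le (FP G E u v ∪ univ.filter (fun p : Fin n × Fin n => s(p.1, p.2) ∈ E))
      (univ.filter (fun p : Fin n × Fin n => G.Adj p.1 p.2 ∧ p.1 ∈ insert u (nb G u)) ∪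
       univ.filter (fun p : Fin n × Fin n => G.Adj p.1 p.2 ∧ p.2 ∈ insert v (nb G v)))
  have h6 := card_union_le (FP G E u v) (univ.filter (fun p : Fin n × Fin n => s(p.1, p.2) ∈ E))
  have h7 := card_union_le
      (univ.filter (fun p : Fin n × Fin n => G.Adj p.1 p.2 ∧ p.1 ∈ insert u (nb G u)))
       (univ.filter (fun p : Fin n × Fin n => G.Adj p.1 p.2 ∧ p.2 ∈ insert v (nb G v)))
  omega

/-- one more prescribed edge costs a factor `2 d / n` -/
theorem switch_step {d : ℕ} (E : Finset (Sym2 (Fin n))) {u v : Fin n} (_huv : u ≠ v)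
    (he : s(u, v) ∉ E) (h1 : 8 * (E.card + 1) ≤ n * d) (h2 : 8 * (d + 1) ≤ n) :
    n * (RGE n d (insert s(u, v) E)).card ≤ 2 * d * (RGE n d E).card := by
  classical
  have hd : 0 < d := by
    rcases Nat.eq_zero_or_pos d with h | h
    · rw [h] at h1; omega
    · exact h
  set A := RGE n d (insert s(u, v) E) with hA
  set F := fun G : SimpleGraph (Fin n) => FP G (insert s(u, v) E) u v with hF
  have hFcard : ∀ G ∈ A, n * d ≤ 2 * (F G).card := by
    intro G hG
    rw [hA, RGE, mem_filter] at hG
    have h3 := FP_card hG.2.1 (insert s(u, v) E) u v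
    rw [card_insert_of_notMem he] at h3
    have h4 : 8 * ((d + 1) * d) ≤ n * d := by
      calc 8 * ((d + 1) * d) = (8 * (d + 1)) * d := by ring
        _ ≤ n * d := Nat.mul_le_mul_right _ h2
    change n * d ≤ 2 * (FP G (insert s(u, v) E) u v).card
    omega
  have hS : A.card * (n * d) ≤ 2 * (A.sigma F).card := by
    rw [card_sigma, mul_sum, ← smul_eq_mul (a := A.card), ← sum_const]
    exact sum_le_sum hFcard
  have hT : (A.sigma F).card ≤ ((RGE n d E).sigma (fun G => nb G u ×ˢ nb G v)).card := by
    apply card_le_card_of_injOn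
      (fun p => (⟨symmDiff p.1 (C4 u v p.2.1 p.2.2), p.2⟩ : Σ _ : SimpleGraph (Fin n), Fin n × Fin n))
    · rintro ⟨G, x, y⟩ hp
      simp only [coe_sigma, Set.mem_sigma_iff, mem_coe] at hp
      obtain ⟨hG, hxy⟩ := hp
      rw [hA, RGE, mem_filter] at hG
      obtain ⟨_, hreg, hE⟩ := hG
      simp only [hF, FP, mem_filter, mem_univ, true_and, mem_insert, not_or] at hxy
      obtain ⟨k1, ⟨k2, k2'⟩, k3, k4, k5, k6⟩ := hxy
      have huvG : G.Adj u v := by
        have := hE s(u, v) (mem_insert_self _ _)
        rwa [SimpleGraph.mem_edgeSet] at this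
      simp only [coe_sigma, Set.mem_sigma_iff, mem_coe, mem_product]
      refine ⟨?_, ?_, ?_⟩
      · rw [RGE, mem_filter]
        refine ⟨mem_univ _, reg_switch hreg huvG k1 k3 k5 k4 k6, ?_⟩
        intro e heE
        have heG := hE e (mem_insert_of_mem heE)
        induction e using Sym2.ind with
        | _ a b =>
          rw [SimpleGraph.mem_edgeSet] at heG ⊢
          rw [symm_adj, C4_adj]
          left
          refine ⟨heG, ?_⟩
          rintro ⟨g, _⟩
          rcases g with g | g | g | g
          · exact he (g ▸ heE)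
          · apply k5
            have : s(v, y) ∈ G.edgeSet := by rw [← g]; exact heG
            exact this
          · apply k2'
            rw [Sym2.eq_swap (a := x), ← g]; exact heE
          · apply k3
            have : s(x, u) ∈ G.edgeSet := by rw [← g]; exact heG
            exact (show G.Adj x u from this).symm
      · simp only [nb, mem_filter, mem_univ, true_and]
        rw [symm_adj, C4_adj]
        right
        exact ⟨⟨by simp, k4⟩, k3⟩
      · simp only [nb, mem_filter, mem_univ, true_and]
        rw [symm_adj, C4_adj]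
        right
        exact ⟨⟨by simp, k6⟩, k5⟩
    · rintro ⟨G, p⟩ _ ⟨G', p'⟩ _ h
      simp only [Sigma.mk.injEq, heq_eq_eq] at h
      obtain ⟨h1, h2⟩ := h
      subst h2
      have := symmDiff_left_injective _ h1
      rw [this]
  have hU : ((RGE n d E).sigma (fun G => nb G u ×ˢ nb G v)).card = (RGE n d E).card * (d * d) := by
    rw [card_sigma, ← smul_eq_mul (a := (RGE n d E).card), ← sum_const]
    apply sum_congr rfl
    intro G hG
    rw [RGE, mem_filter] at hG
    rw [card_product, nb_card hG.2.1, nb_card hG.2.1]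
  have hfin : (n * A.card) * d ≤ (2 * d * (RGE n d E).card) * d := by
    calc (n * A.card) * d = A.card * (n * d) := by ring
      _ ≤ 2 * (A.sigma F).card := hS
      _ ≤ 2 * ((RGE n d E).card * (d * d)) := by rw [← hU]; exact Nat.mul_le_mul_left _ hT
      _ = (2 * d * (RGE n d E).card) * d := by ring
  exact Nat.le_of_mul_le_mul_right hfin hd

/-- the number of `d`-regular graphs which contain `E` -/
theorem switch_bound {d : ℕ} (h2 : 8 * (d + 1) ≤ n) (E : Finset (Sym2 (Fin n)))
    (hdiag : ∀ e ∈ E, ¬ e.IsDiag) (h1 : 8 * E.card ≤ n * d) :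
    n ^ E.card * (RGE n d E).card ≤ (2 * d) ^ E.card * (RG n d).card := by
  classical
  induction E using Finset.induction_on with
  | empty =>
    have : RGE n d ∅ = RG n d := by
      ext G; simp [RGE, RG]
    rw [this]; simp
  | insert e E he ih =>
    rw [card_insert_of_notMem he] at h1 ⊢
    have ih' := ih (fun e' h => hdiag e' (mem_insert_of_mem h)) (by omega)
    have hne := hdiag e (mem_insert_self _ _)
    induction e using Sym2.ind with
    | _ a b =>
      have hab : a ≠ b := by
        intro h; exact hne (by simp [h])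
      have h3 := switch_step E hab he (by omega) h2
      calc n ^ (E.card + 1) * (RGE n d (insert s(a, b) E)).card
          = n ^ E.card * (n * (RGE n d (insert s(a, b) E)).card) := by rw [pow_succ]; ring
        _ ≤ n ^ E.card * (2 * d * (RGE n d E).card) := Nat.mul_le_mul_left _ h3
        _ = 2 * d * (n ^ E.card * (RGE n d E).card) := by ring
        _ ≤ 2 * d * ((2 * d) ^ E.card * (RG n d).card) := Nat.mul_le_mul_left _ ih'
        _ = (2 * d) ^ (E.card + 1) * (RG n d).card := by rw [pow_succ]; ring

end Pool.Agent.H336R3.Shot
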